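import Pool.Agent.Run7.h778.RL.Perms

set_option autoImplicit false

/-!
Lifts (finite covers) of a graph, parametrized by permutations on the arcs of an orientation.
-/

namespace Pool.Agent.Run7.H778.RL

open Finset SimpleGraph H931R3.LA Pool.Agent.W111.LAR Function

/-- `G` is an `n`-lift of `H`: its vertices are the pairs `(v, i)` with `v` a vertex of `H` and
`i < n`, adjacent vertices lie over adjacent vertices, and for every edge `v w` of `H` every vertex
over `v` has exactly one neighbour over `w`. -/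
def IsLift {V : Type} (H : SimpleGraph V) (n : ℕ) (G : SimpleGraph (V × Fin n)) : Prop :=
  (∀ x y, G.Adj x y → H.Adj x.1 y.1) ∧
    ∀ (x : V × Fin n) (w : V), H.Adj x.1 w → ∃! b : Fin n, G.Adj x (w, b)

/-- A base graph with an orientation, permutations and a matching. -/
structure Base (V : Type) (k : ℕ) where
  H : SimpleGraph V
  D : V → V → Prop
  τ : Fin k → Equiv.Perm V
  M : SimpleGraph V
  hD : ∀ u v, H.Adj u v ↔ D u v ∨ D v u
  asym : ∀ u v, D u v → ¬ D v u
  hτ : ∀ i u, D u (τ i u)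
  τinj : ∀ i j u, τ i u = τ j u → i = j
  hM : ∀ u v, M.Adj u v ↔ H.Adj u v ∧ (∀ i, τ i u ≠ v) ∧ (∀ i, τ i v ≠ u)
  Mdeg : ∀ u v w, M.Adj u v → M.Adj u w → v = w

namespace Base

variable {V : Type} {k : ℕ} (B : Base V k) (n : ℕ)

/-- The arcs. -/
abbrev Arc : Type := {p : V × V // B.D p.1 p.2}

/-- The labellings of the arcs by permutations. -/
abbrev S : Type := B.Arc → Equiv.Perm (Fin n)

variable {n}

/-- The lift given by a labelling. -/
def lg (s : B.S n) : SimpleGraph (V × Fin n) where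
  Adj x y := (∃ h : B.D x.1 y.1, s ⟨(x.1, y.1), h⟩ x.2 = y.2) ∨
    ∃ h : B.D y.1 x.1, s ⟨(y.1, x.1), h⟩ y.2 = x.2
  symm.symm := fun _ _ h => h.symm
  loopless.irrefl := by
    rintro x (⟨h, _⟩ | ⟨h, _⟩)
    · exact B.asym _ _ h h
    · exact B.asym _ _ h h

theorem lg_left (s : B.S n) {x y : V × Fin n} (h : B.D x.1 y.1) :
    (B.lg s).Adj x y ↔ s ⟨(x.1, y.1), h⟩ x.2 = y.2 := by
  constructor
  · rintro (⟨_, h2⟩ | ⟨h1, _⟩)
    · exact h2
    · exact absurd h1 (B.asym _ _ h)
  · intro h2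
    exact Or.inl ⟨h, h2⟩

theorem lg_right (s : B.S n) {x y : V × Fin n} (h : B.D y.1 x.1) :
    (B.lg s).Adj x y ↔ s ⟨(y.1, x.1), h⟩ y.2 = x.2 := by
  rw [SimpleGraph.adj_comm]
  exact B.lg_left s h

theorem isLift (s : B.S n) : IsLift B.H n (B.lg s) := by
  refine ⟨?_, ?_⟩
  · rintro x y (⟨h, _⟩ | ⟨h, _⟩)
    · exact (B.hD _ _).2 (Or.inl h)
    · exact (B.hD _ _).2 (Or.inr h)
  · rintro x w h
    rcases (B.hD _ _).1 h with h1 | h1
    · refine ⟨s ⟨(x.1, w), h1⟩ x.2, ?_, ?_⟩
      · exact (B.lg_left s (y := (w, _)) h1).2 rfl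
      · intro b hb
        exact ((B.lg_left s (y := (w, b)) h1).1 hb).symm
    · refine ⟨(s ⟨(w, x.1), h1⟩).symm x.2, ?_, ?_⟩
      · exact (B.lg_right s (y := (w, _)) h1).2 (Equiv.apply_symm_apply _ _)
      · intro b hb
        rw [Equiv.eq_symm_apply]
        exact (B.lg_right s (y := (w, b)) h1).1 hb

theorem lg_injective : Injective (B.lg (n := n)) := by
  intro s s' h
  funext p
  ext1 a
  obtain ⟨⟨u, w⟩, hp⟩ := p
  have h1 : (B.lg s).Adj (u, a) (w, s ⟨(u, w), hp⟩ a) := (B.lg_left s (x := (u, a)) (y := (w, _)) hp).2 rfl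
  rw [h] at h1
  exact ((B.lg_left s' (x := (u, a)) (y := (w, _)) hp).1 h1).symm

theorem exists_lg (G : SimpleGraph (V × Fin n)) (hG : IsLift B.H n G) : ∃ s, B.lg s = G := by
  have h1 : ∀ (x : V × Fin n) (w : V), ∃ b : Fin n, B.H.Adj x.1 w →
      G.Adj x (w, b) ∧ ∀ b', G.Adj x (w, b') → b' = b := by
    intro x w
    by_cases h : B.H.Adj x.1 w
    · obtain ⟨b, h2, h3⟩ := hG.2 x w h
      exact ⟨b, fun _ => ⟨h2, h3⟩⟩
    · exact ⟨x.2, fun h2 => absurd h2 h⟩
  choose f hf using h1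
  let s : B.S n := fun p =>
    { toFun := fun a => f (p.1.1, a) p.1.2
      invFun := fun b => f (p.1.2, b) p.1.1
      left_inv := by
        intro a
        have h2 : B.H.Adj p.1.1 p.1.2 := (B.hD _ _).2 (Or.inl p.2)
        have h3 := (hf (p.1.1, a) p.1.2 h2).1
        exact ((hf (p.1.2, f (p.1.1, a) p.1.2) p.1.1 h2.symm).2 a h3.symm).symm
      right_inv := by
        intro b
        have h2 : B.H.Adj p.1.1 p.1.2 := (B.hD _ _).2 (Or.inl p.2)
        have h3 := (hf (p.1.2, b) p.1.1 h2.symm).1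
        exact ((hf (p.1.1, f (p.1.2, b) p.1.1) p.1.2 h2).2 b h3.symm).symm }
  refine ⟨s, ?_⟩
  have key : ∀ x y : V × Fin n, B.D x.1 y.1 → ((B.lg s).Adj x y ↔ G.Adj x y) := by
    intro x y h
    rw [B.lg_left s h]
    have h2 : B.H.Adj x.1 y.1 := (B.hD _ _).2 (Or.inl h)
    have h3 := hf x y.1 h2
    show f (x.1, x.2) y.1 = y.2 ↔ _
    constructor
    · intro h4
      have h5 := h3.1
      rw [show f x y.1 = y.2 from h4] at h5
      exact h5
    · intro h4
      exact (h3.2 y.2 h4).symm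
  ext x y
  constructor
  · intro h
    have h2 := (B.isLift s).1 x y h
    rcases (B.hD _ _).1 h2 with h3 | h3
    · exact (key x y h3).1 h
    · exact ((key y x h3).1 h.symm).symm
  · intro h
    have h2 := hG.1 x y h
    rcases (B.hD _ _).1 h2 with h3 | h3
    · exact (key x y h3).2 h
    · exact ((key y x h3).2 h.symm).symm

/-- Counting lifts. -/
theorem ncard_lift (Q : SimpleGraph (V × Fin n) → Prop) :
    {G : SimpleGraph (V × Fin n) | IsLift B.H n G ∧ Q G}.ncard = {s : B.S n | Q (B.lg s)}.ncard := by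
  rw [← Set.ncard_image_of_injective _ B.lg_injective]
  congr 1
  ext G
  simp only [Set.mem_ofPred_eq, Set.mem_image]
  constructor
  · rintro ⟨h1, h2⟩
    obtain ⟨s, rfl⟩ := B.exists_lg G h1
    exact ⟨s, h2, rfl⟩
  · rintro ⟨s, h, rfl⟩
    exact ⟨B.isLift s, h⟩

/-- The lifted permutations. -/
def T (s : B.S n) (i : Fin k) : Equiv.Perm (V × Fin n) :=
  Equiv.prodShear (B.τ i) (fun u => s ⟨(u, B.τ i u), B.hτ i u⟩)

theorem T_apply (s : B.S n) (i : Fin k) (x : V × Fin n) :
    B.T s i x = (B.τ i x.1, s ⟨(x.1, B.τ i x.1), B.hτ i x.1⟩ x.2) := rfl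

/-- The lifted matching. -/
def P (s : B.S n) : SimpleGraph (V × Fin n) where
  Adj x y := (B.lg s).Adj x y ∧ B.M.Adj x.1 y.1
  symm.symm := fun _ _ h => ⟨h.1.symm, h.2.symm⟩
  loopless.irrefl := fun _ h => h.2.ne rfl

theorem P_deg (s : B.S n) (x : V × Fin n) : ((B.P s).neighborSet x).ncard ≤ 1 := by
  have hsub : ((B.P s).neighborSet x).Subsingleton := by
    rintro ⟨w, b⟩ ⟨h1, h2⟩ ⟨w', b'⟩ ⟨h3, h4⟩
    have hw : w = w' := B.Mdeg _ _ _ h2 h4
    subst hw
    have h5 := (B.isLift s).1 _ _ h1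
    obtain ⟨b0, _, h6⟩ := (B.isLift s).2 x w h5
    rw [h6 b h1, h6 b' h3]
  rcases hsub.eq_empty_or_singleton with h | ⟨y, h⟩
  · rw [h, Set.ncard_empty]
    exact Nat.zero_le _
  · rw [h, Set.ncard_singleton]

theorem lg_adj (s : B.S n) (x y : V × Fin n) : (B.lg s).Adj x y ↔
    (B.P s).Adj x y ∨ (∃ i, B.T s i x = y) ∨ ∃ i, B.T s i y = x := by
  have key : ∀ x y : V × Fin n, ∀ i, B.τ i x.1 = y.1 → (B.lg s).Adj x y → B.T s i x = y := by
    rintro ⟨u, a⟩ ⟨w, b⟩ i h h2
    simp only at h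
    subst h
    rw [B.lg_left s (B.hτ i u)] at h2
    rw [T_apply]
    exact Prod.ext rfl h2
  have key2 : ∀ x : V × Fin n, ∀ i, (B.lg s).Adj x (B.T s i x) := by
    rintro ⟨u, a⟩ i
    rw [T_apply]
    exact (B.lg_left s (x := (u, a)) (y := (B.τ i u, _)) (B.hτ i u)).2 rfl
  constructor
  · intro h
    by_cases h1 : ∃ i, B.τ i x.1 = y.1
    · obtain ⟨i, hi⟩ := h1
      exact Or.inr (Or.inl ⟨i, key x y i hi h⟩)
    · by_cases h2 : ∃ i, B.τ i y.1 = x.1
      · obtain ⟨i, hi⟩ := h2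
        exact Or.inr (Or.inr ⟨i, key y x i hi h.symm⟩)
      · left
        push Not at h1 h2
        exact ⟨h, (B.hM _ _).2 ⟨(B.isLift s).1 _ _ h, h1, h2⟩⟩
  · rintro (h | ⟨i, rfl⟩ | ⟨i, rfl⟩)
    · exact h.1
    · exact key2 x i
    · exact (key2 y i).symm

open Classical in
/-- The switching at `x` in the permutation `i`. -/
noncomputable def sw (i : Fin k) (x : V × Fin n) (c : Fin n) (s : B.S n) : B.S n :=
  update s ⟨((B.τ i).symm x.1, x.1), by
    have := B.hτ i ((B.τ i).symm x.1)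
    rwa [Equiv.apply_symm_apply] at this⟩
    (Equiv.swap x.2 c * s ⟨((B.τ i).symm x.1, x.1), by
      have := B.hτ i ((B.τ i).symm x.1)
      rwa [Equiv.apply_symm_apply] at this⟩)

theorem sw_injective (i : Fin k) (x : V × Fin n) (c : Fin n) : Injective (B.sw i x c) := by
  classical
  intro s s' h
  funext p
  have h1 := congrFun h p
  unfold sw at h1
  rw [Function.update_apply, Function.update_apply] at h1
  split_ifs at h1 with h2
  · rw [h2]
    exact mul_left_cancel h1
  · exact h1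

open Classical in
theorem T_sw (i : Fin k) (x : V × Fin n) (c : Fin n) (s : B.S n) :
    B.T (B.sw i x c s) i = Equiv.swap x (x.1, c) * B.T s i := by
  obtain ⟨u, a⟩ := x
  ext1 ⟨u', a'⟩
  rw [Equiv.Perm.mul_apply, T_apply, T_apply]
  simp only
  unfold sw
  simp only
  by_cases h : B.τ i u' = u
  · subst h
    have h2 : (⟨(u', B.τ i u'), B.hτ i u'⟩ : B.Arc) = ⟨((B.τ i).symm (B.τ i u'), B.τ i u'), by
        have := B.hτ i ((B.τ i).symm (B.τ i u'))
        rwa [Equiv.apply_symm_apply] at this⟩ := by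
      apply Subtype.ext
      simp
    rw [h2, Function.update_self, Equiv.Perm.mul_apply]
    set b := s ⟨((B.τ i).symm (B.τ i u'), B.τ i u'), by
        have := B.hτ i ((B.τ i).symm (B.τ i u'))
        rwa [Equiv.apply_symm_apply] at this⟩ a' with hb
    by_cases hba : b = a
    · rw [hba, Equiv.swap_apply_left, Equiv.swap_apply_left]
    · by_cases hbc : b = c
      · rw [hbc, Equiv.swap_apply_right, Equiv.swap_apply_right]
      · rw [Equiv.swap_apply_of_ne_of_ne hba hbc, Equiv.swap_apply_of_ne_of_ne]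
        · intro h; exact hba (congrArg Prod.snd h)
        · intro h; exact hbc (congrArg Prod.snd h)
  · rw [Function.update_of_ne, Equiv.swap_apply_of_ne_of_ne]
    · intro h2; exact h (congrArg Prod.fst h2)
    · intro h2; exact h (congrArg Prod.fst h2)
    · intro h2
      have h3 : B.τ i u' = u := congrArg (fun p : B.Arc => p.1.2) h2
      exact h h3

theorem T_sw_ne (i j : Fin k) (hij : i ≠ j) (x : V × Fin n) (c : Fin n) (s : B.S n) :
    B.T (B.sw i x c s) j = B.T s j := by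
  classical
  ext1 ⟨u', a'⟩
  rw [T_apply, T_apply]
  simp only
  unfold sw
  rw [Function.update_of_ne]
  intro h2
  have h3 : B.τ j u' = x.1 := congrArg (fun p : B.Arc => p.1.2) h2
  have h4 : u' = (B.τ i).symm x.1 := congrArg (fun p : B.Arc => p.1.1) h2
  rw [Equiv.eq_symm_apply] at h4
  exact hij (B.τinj i j u' (h4.trans h3.symm))

theorem lg_sw (i : Fin k) (x : V × Fin n) (c : Fin n) (s : B.S n) (v w : V × Fin n)
    (h : B.M.Adj v.1 w.1) : (B.lg (B.sw i x c s)).Adj v w ↔ (B.lg s).Adj v w := by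
  classical
  have key : ∀ v w : V × Fin n, B.M.Adj v.1 w.1 → B.D v.1 w.1 →
      ((B.lg (B.sw i x c s)).Adj v w ↔ (B.lg s).Adj v w) := by
    intro v w h h1
    rw [B.lg_left _ h1, B.lg_left _ h1]
    unfold sw
    rw [Function.update_of_ne]
    intro h2
    have h3 : w.1 = x.1 := congrArg (fun p : B.Arc => p.1.2) h2
    have h4 : v.1 = (B.τ i).symm x.1 := congrArg (fun p : B.Arc => p.1.1) h2
    rw [Equiv.eq_symm_apply, ← h3] at h4
    exact ((B.hM _ _).1 h).2.1 i h4
  have h1 := ((B.hM _ _).1 h).1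
  rcases (B.hD _ _).1 h1 with h2 | h2
  · exact key v w h h2
  · rw [SimpleGraph.adj_comm, key w v h.symm h2, SimpleGraph.adj_comm]

/-- The labellings with a prescribed value. -/
theorem count_value [Finite V] (e : B.Arc) (a b : Fin n) :
    {s : B.S n | s e a = b}.ncard * n ≤ Nat.card (B.S n) := by
  classical
  have h1 : Nat.card ({s : B.S n | s e a = b} × Fin n) ≤ Nat.card (B.S n) := by
    refine Nat.card_le_card_of_injective
      (fun p => update p.1.1 e (Equiv.swap b p.2 * p.1.1 e)) ?_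
    rintro ⟨⟨s, hs⟩, c⟩ ⟨⟨s', hs'⟩, c'⟩ h
    simp only [Set.mem_ofPred_eq] at hs hs'
    have h2 : ∀ p, update s e (Equiv.swap b c * s e) p = update s' e (Equiv.swap b c' * s' e) p :=
      fun p => congrFun h p
    have h3 := h2 e
    rw [Function.update_self, Function.update_self] at h3
    have h4 := congrArg (fun f : Equiv.Perm (Fin n) => f a) h3
    simp only [Equiv.Perm.mul_apply, hs, hs', Equiv.swap_apply_left] at h4
    subst h4
    have h5 : s = s' := by
      funext p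
      by_cases hp : p = e
      · rw [hp]; exact mul_left_cancel h3
      · have := h2 p
        rwa [Function.update_of_ne hp, Function.update_of_ne hp] at this
    subst h5
    rfl
  rw [Nat.card_prod, Nat.card_fin, Nat.card_coe_set_eq] at h1
  exact h1

theorem count_adj [Finite V] (v w : V × Fin n) (h : B.H.Adj v.1 w.1) :
    {s : B.S n | (B.lg s).Adj v w}.ncard * n ≤ Nat.card (B.S n) := by
  rcases (B.hD _ _).1 h with h1 | h1
  · have h2 : {s : B.S n | (B.lg s).Adj v w} = {s : B.S n | s ⟨(v.1, w.1), h1⟩ v.2 = w.2} := by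
      ext s
      exact B.lg_left s h1
    rw [h2]
    exact B.count_value _ _ _
  · have h2 : {s : B.S n | (B.lg s).Adj v w} = {s : B.S n | s ⟨(w.1, v.1), h1⟩ w.2 = v.2} := by
      ext s
      exact B.lg_right s h1
    rw [h2]
    exact B.count_value _ _ _

end Base

end Pool.Agent.Run7.H778.RL
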