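import Pool.Agent.Run7.h778.RL.Lift

set_option autoImplicit false

/-!
Counting the lifts with short cycles close to each other.
-/

namespace Pool.Agent.Run7.H778.RL

open Finset SimpleGraph H931R3.LA Pool.Agent.W111.LAR Function

/-- Switching, for sets. -/
theorem switch_set {S C X : Type} [Finite S] [Finite C] [Finite X]
    [DecidableEq X] (T : S → Equiv.Perm X) (x : X) (z : C → X) (hz : Injective z)
    (φ : C → S → S) (hφ : ∀ c, Injective (φ c))
    (hT : ∀ c s, T (φ c s) = Equiv.swap x (z c) * T s) (A B : Set S) (g m : ℕ)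
    (hA : ∀ s ∈ A, minimalPeriod (T s) x ≤ g) (bad : S → Set C)
    (hbad : ∀ s ∈ A, (bad s).ncard ≤ m)
    (hB : ∀ s ∈ A, ∀ c, c ∉ bad s → ¬ (T s).SameCycle x (z c) ∧ φ c s ∈ B) :
    A.ncard * (Nat.card C - m) ≤ g * B.ncard := by
  classical
  have := Fintype.ofFinite S
  have := Fintype.ofFinite C
  have key := switch_count T x z hz φ hφ hT (Set.toFinite A).toFinset (Set.toFinite B).toFinset g m
    (fun s hs => hA s ((Set.Finite.mem_toFinset _).1 hs))
    (fun s => (Set.toFinite (bad s)).toFinset) (fun s hs => by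
      rw [← Set.ncard_eq_toFinset_card]
      exact hbad s ((Set.Finite.mem_toFinset _).1 hs))
    (fun s hs c hc => by
      obtain ⟨h1, h2⟩ := hB s ((Set.Finite.mem_toFinset _).1 hs) c
        (fun h => hc ((Set.Finite.mem_toFinset _).2 h))
      exact ⟨h1, (Set.Finite.mem_toFinset _).2 h2⟩)
  rw [← Set.ncard_eq_toFinset_card, ← Set.ncard_eq_toFinset_card, ← Nat.card_eq_fintype_card] at key
  exact key

theorem fibre_card {V : Type} [Finite V] {n : ℕ} (τ : Equiv.Perm (V × Fin n)) (v : V × Fin n)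
    (u : V) : {c : Fin n | τ.SameCycle v (u, c)}.ncard ≤ minimalPeriod τ v := by
  classical
  have h1 : ∀ c : {c : Fin n | τ.SameCycle v (u, c)}, ∃ j : Fin (minimalPeriod τ v),
      τ^[j.val] v = (u, c.1) := by
    rintro ⟨c, hc⟩
    obtain ⟨m, hm⟩ := (show τ.SameCycle v (u, c) from hc).exists_nat_pow_eq
    refine ⟨⟨m % minimalPeriod τ v, Nat.mod_lt _ (per_pos τ v)⟩, ?_⟩
    show τ^[m % minimalPeriod τ v] v = (u, c)
    rw [iterate_mod_minimalPeriod_eq, Equiv.Perm.iterate_eq_pow]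
    exact hm
  choose f hf using h1
  have h2 : Injective f := by
    intro c c' h
    have h3 := hf c
    rw [h, hf c'] at h3
    exact Subtype.ext (congrArg Prod.snd h3).symm
  have h3 := Nat.card_le_card_of_injective f h2
  rw [Nat.card_fin, Nat.card_coe_set_eq] at h3
  exact h3

namespace Base

variable {V : Type} {k : ℕ} (B : Base V k) {n : ℕ}

/-- One short cycle. -/
theorem single_count [Finite V] (R : B.S n → Prop)
    (hR : ∀ i x c s, R s → R (B.sw i x c s)) (i : Fin k) (v : V × Fin n) (g : ℕ) :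
    {s | R s ∧ minimalPeriod (B.T s i) v < g}.ncard * (n - g) ≤ g * {s | R s}.ncard := by
  classical
  have key := switch_set (fun s => B.T s i) v (fun c : Fin n => (v.1, c))
    (fun c c' h => congrArg Prod.snd h) (fun c s => B.sw i v c s) (fun c => B.sw_injective i v c)
    (fun c s => B.T_sw i v c s) {s | R s ∧ minimalPeriod (B.T s i) v < g} {s | R s} g g
    (fun s hs => hs.2.le) (fun s => {c | (B.T s i).SameCycle v (v.1, c)})
    (fun s hs => (fibre_card (B.T s i) v v.1).trans hs.2.le)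
    (fun s hs c hc => ⟨hc, hR i v c s hs.1⟩)
  rw [Nat.card_fin] at key
  exact key

/-- Two short cycles. -/
theorem pair_count [Finite V] (R : B.S n → Prop)
    (hR : ∀ i x c s, R s → R (B.sw i x c s)) (i j : Fin k) (v w : V × Fin n) (g L : ℕ) :
    {s | R s ∧ minimalPeriod (B.T s i) v < g ∧ minimalPeriod (B.T s j) w < L ∧
      ¬ (i = j ∧ (B.T s i).SameCycle v w)}.ncard * (n - (g + L)) * (n - L) ≤
      g * (L * {s | R s}.ncard) := by
  classical
  set A : Set (B.S n) := {s | R s ∧ minimalPeriod (B.T s i) v < g ∧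
    minimalPeriod (B.T s j) w < L ∧ ¬ (i = j ∧ (B.T s i).SameCycle v w)} with hA
  have h1 : A.ncard * (n - (g + L)) ≤ g * {s | R s ∧ minimalPeriod (B.T s j) w < L}.ncard := by
    have key := switch_set (fun s => B.T s i) v (fun c : Fin n => (v.1, c))
      (fun c c' h => congrArg Prod.snd h) (fun c s => B.sw i v c s) (fun c => B.sw_injective i v c)
      (fun c s => B.T_sw i v c s) A {s | R s ∧ minimalPeriod (B.T s j) w < L} g (g + L)
      (fun s hs => hs.2.1.le) (fun s => {c | (B.T s i).SameCycle v (v.1, c)} ∪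
        {c | (B.T s j).SameCycle w (v.1, c)})
      (fun s hs => by
        refine (Set.ncard_union_le _ _).trans (add_le_add ?_ ?_)
        · exact (fibre_card (B.T s i) v v.1).trans hs.2.1.le
        · exact (fibre_card (B.T s j) w v.1).trans hs.2.2.1.le)
      (fun s hs c hc => by
        rw [Set.mem_union, not_or] at hc
        obtain ⟨hc1, hc2⟩ := hc
        refine ⟨hc1, hR i v c s hs.1, ?_⟩
        by_cases hij : i = j
        · subst hij
          rw [B.T_sw]
          have h3 := (swap_iter_of (B.T s i) v (v.1, c) w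
            (fun h => hs.2.2.2 ⟨rfl, h.symm⟩) hc2).2
          convert h3.le.trans_lt hs.2.2.1 using 2
        · rw [B.T_sw_ne i j hij]
          exact hs.2.2.1)
    rw [Nat.card_fin] at key
    exact key
  have h2 := B.single_count R hR j w L
  calc A.ncard * (n - (g + L)) * (n - L)
      ≤ (g * {s | R s ∧ minimalPeriod (B.T s j) w < L}.ncard) * (n - L) :=
        Nat.mul_le_mul_right _ h1
    _ = g * ({s | R s ∧ minimalPeriod (B.T s j) w < L}.ncard * (n - L)) := by ring
    _ ≤ g * (L * {s | R s}.ncard) := Nat.mul_le_mul_left _ h2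

/-- The first bad event. -/
def E1 (n g L : ℕ) : Set (B.S n) := {s | ∃ i j v w, minimalPeriod (B.T s i) v < g ∧
  (v = w ∨ (B.P s).Adj v w) ∧ minimalPeriod (B.T s j) w < L ∧
    ¬ (i = j ∧ (B.T s i).SameCycle v w)}

/-- The second bad event. -/
def E2 (n g lam : ℕ) : Set (B.S n) :=
  {s | lam < {p : Fin k × (V × Fin n) | minimalPeriod (B.T s p.1) p.2 < g}.ncard}

theorem ncard_ex_le {S I : Type} [Finite S] [Fintype I] (F : I → Set S) (c : ℝ)
    (h : ∀ i, ((F i).ncard : ℝ) ≤ c) : ({s | ∃ i, s ∈ F i}.ncard : ℝ) ≤ Fintype.card I * c := by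
  classical
  have := Fintype.ofFinite S
  have h1 : {s | ∃ i, s ∈ F i}.ncard ≤ ∑ i, (F i).ncard := by
    have h2 : {s | ∃ i, s ∈ F i} = (((univ : Finset I).biUnion
        (fun i => (Set.toFinite (F i)).toFinset) : Finset S) : Set S) := by
      ext s
      rw [mem_coe, mem_biUnion]
      constructor
      · rintro ⟨i, hi⟩
        exact ⟨i, mem_univ _, (Set.Finite.mem_toFinset _).2 hi⟩
      · rintro ⟨i, _, hi⟩
        exact ⟨i, (Set.Finite.mem_toFinset _).1 hi⟩
    rw [h2, Set.ncard_coe_finset]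
    refine card_biUnion_le.trans (le_of_eq ?_)
    refine sum_congr rfl fun i _ => ?_
    rw [← Set.ncard_eq_toFinset_card]
  calc ({s | ∃ i, s ∈ F i}.ncard : ℝ) ≤ ((∑ i, (F i).ncard : ℕ) : ℝ) := by exact_mod_cast h1
    _ = ∑ i, ((F i).ncard : ℝ) := by push_cast; rfl
    _ ≤ ∑ _i : I, c := sum_le_sum fun i _ => h i
    _ = Fintype.card I * c := by rw [sum_const, nsmul_eq_mul, card_univ]

theorem E1_le [Fintype V] (n g L : ℕ) (hn : g + L < n) :
    ((B.E1 n g L).ncard : ℝ) ≤ 2 * k ^ 2 * Fintype.card V * n * g * L /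
      ((n : ℝ) - (g + L)) ^ 2 * Nat.card (B.S n) := by
  classical
  set N : ℝ := (Nat.card (B.S n) : ℝ) with hN
  set δ : ℝ := (n : ℝ) - (g + L) with hδ
  have hδ0 : 0 < δ := by
    have : ((g + L : ℕ) : ℝ) < n := by exact_mod_cast hn
    push_cast at this
    rw [hδ]; linarith
  have hn0 : (0 : ℝ) < n := by exact_mod_cast (by omega : 0 < n)
  have hδn : ((n - (g + L) : ℕ) : ℝ) = δ := by
    rw [Nat.cast_sub hn.le, hδ]; push_cast; ring
  have hδL : δ ≤ ((n - L : ℕ) : ℝ) := by
    rw [← hδn]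
    exact_mod_cast Nat.sub_le_sub_left (Nat.le_add_left L g) n
  have hpair : ∀ (R : B.S n → Prop), (∀ i x c s, R s → R (B.sw i x c s)) → ∀ i j v w,
      ({s | R s ∧ minimalPeriod (B.T s i) v < g ∧ minimalPeriod (B.T s j) w < L ∧
      ¬ (i = j ∧ (B.T s i).SameCycle v w)}.ncard : ℝ) ≤ g * L / δ ^ 2 * {s | R s}.ncard := by
    intro R hR i j v w
    have h1 := B.pair_count R hR i j v w g L
    have h2 : (({s | R s ∧ minimalPeriod (B.T s i) v < g ∧ minimalPeriod (B.T s j) w < L ∧
      ¬ (i = j ∧ (B.T s i).SameCycle v w)}.ncard : ℝ)) * ((n - (g + L) : ℕ) : ℝ) *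
        ((n - L : ℕ) : ℝ) ≤ g * (L * {s | R s}.ncard) := by exact_mod_cast h1
    rw [hδn] at h2
    set a : ℝ := ({s | R s ∧ minimalPeriod (B.T s i) v < g ∧ minimalPeriod (B.T s j) w < L ∧
      ¬ (i = j ∧ (B.T s i).SameCycle v w)}.ncard : ℝ)
    have ha : 0 ≤ a := Nat.cast_nonneg _
    have h3 : a * δ * δ ≤ g * (L * {s | R s}.ncard) :=
      le_trans (mul_le_mul_of_nonneg_left hδL (by positivity)) h2
    rw [div_mul_eq_mul_div, le_div_iff₀ (by positivity)]
    linarith [h3, sq δ]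
  -- the two types of events
  let F1 : Fin k × Fin k × (V × Fin n) → Set (B.S n) := fun q =>
    {s | True ∧ minimalPeriod (B.T s q.1) q.2.2 < g ∧ minimalPeriod (B.T s q.2.1) q.2.2 < L ∧
      ¬ (q.1 = q.2.1 ∧ (B.T s q.1).SameCycle q.2.2 q.2.2)}
  let mt : V → V := fun u => if h : ∃ w, B.M.Adj u w then h.choose else u
  have hmt : ∀ u w, B.M.Adj u w → mt u = w := by
    intro u w h
    have hex : ∃ w, B.M.Adj u w := ⟨w, h⟩
    have h1 : mt u = hex.choose := dif_pos hex
    rw [h1]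
    exact B.Mdeg u _ _ hex.choose_spec h
  let F2 : Fin k × Fin k × (V × Fin n) × Fin n → Set (B.S n) := fun q =>
    {s | ((B.lg s).Adj q.2.2.1 (mt q.2.2.1.1, q.2.2.2) ∧ B.M.Adj q.2.2.1.1 (mt q.2.2.1.1)) ∧
      minimalPeriod (B.T s q.1) q.2.2.1 < g ∧
      minimalPeriod (B.T s q.2.1) (mt q.2.2.1.1, q.2.2.2) < L ∧
      ¬ (q.1 = q.2.1 ∧ (B.T s q.1).SameCycle q.2.2.1 (mt q.2.2.1.1, q.2.2.2))}
  have hsub : B.E1 n g L ⊆ {s | ∃ q, s ∈ F1 q} ∪ {s | ∃ q, s ∈ F2 q} := by
    rintro s ⟨i, j, v, w, h1, h2, h3, h4⟩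
    rcases h2 with rfl | h2
    · left
      exact ⟨(i, j, v), trivial, h1, h3, h4⟩
    · right
      obtain ⟨w1, w2⟩ := w
      obtain ⟨h5, h6⟩ := h2
      have h7 := hmt _ _ h6
      simp only at h6 h7
      subst h7
      exact ⟨(i, j, v, w2), ⟨h5, h6⟩, h1, h3, h4⟩
  have hb1 : ∀ q, ((F1 q).ncard : ℝ) ≤ g * L / δ ^ 2 * N := by
    intro q
    have h1 := hpair (fun _ => True) (fun _ _ _ _ _ => trivial) q.1 q.2.1 q.2.2 q.2.2
    refine h1.trans ?_
    have h2 : ({s : B.S n | True}.ncard : ℝ) = N := by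
      rw [Set.ofPred_true, Set.ncard_univ]
    rw [h2]
  have hb2 : ∀ q, ((F2 q).ncard : ℝ) ≤ g * L / δ ^ 2 * (N / n) := by
    intro q
    by_cases hq : B.M.Adj q.2.2.1.1 (mt q.2.2.1.1)
    · have h1 := hpair (fun s => (B.lg s).Adj q.2.2.1 (mt q.2.2.1.1, q.2.2.2) ∧
        B.M.Adj q.2.2.1.1 (mt q.2.2.1.1)) (fun i x c s hs =>
          ⟨(B.lg_sw i x c s q.2.2.1 (mt q.2.2.1.1, q.2.2.2) hq).2 hs.1, hs.2⟩)
          q.1 q.2.1 q.2.2.1 (mt q.2.2.1.1, q.2.2.2)
      refine h1.trans ?_
      refine mul_le_mul_of_nonneg_left ?_ (by positivity)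
      rw [le_div_iff₀ hn0]
      have h2 := B.count_adj q.2.2.1 (mt q.2.2.1.1, q.2.2.2) ((B.hM _ _).1 hq).1
      have h3 : {s | (B.lg s).Adj q.2.2.1 (mt q.2.2.1.1, q.2.2.2) ∧
          B.M.Adj q.2.2.1.1 (mt q.2.2.1.1)}.ncard ≤
          {s | (B.lg s).Adj q.2.2.1 (mt q.2.2.1.1, q.2.2.2)}.ncard :=
        Set.ncard_le_ncard (fun s hs => hs.1) (Set.toFinite _)
      have h4 := (Nat.mul_le_mul_right n h3).trans h2
      rw [hN]
      exact_mod_cast h4
    · have h1 : F2 q = ∅ := by
        ext s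
        simp only [Set.mem_empty_iff_false, iff_false]
        rintro ⟨⟨_, h⟩, _⟩
        exact hq h
      rw [h1, Set.ncard_empty]
      push_cast
      positivity
  have h1 := ncard_ex_le F1 _ hb1
  have h2 := ncard_ex_le F2 _ hb2
  have h3 := Set.ncard_le_ncard hsub (Set.toFinite _)
  have h4 := Set.ncard_union_le {s | ∃ q, s ∈ F1 q} {s | ∃ q, s ∈ F2 q}
  have h5 : ((B.E1 n g L).ncard : ℝ) ≤ ({s | ∃ q, s ∈ F1 q}.ncard : ℝ) +
      ({s | ∃ q, s ∈ F2 q}.ncard : ℝ) := by exact_mod_cast h3.trans h4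
  have c1 : (Fintype.card (Fin k × Fin k × (V × Fin n)) : ℝ) = k ^ 2 * Fintype.card V * n := by
    simp only [Fintype.card_prod, Fintype.card_fin]
    push_cast
    ring
  have c2 : (Fintype.card (Fin k × Fin k × (V × Fin n) × Fin n) : ℝ) =
      k ^ 2 * Fintype.card V * n * n := by
    simp only [Fintype.card_prod, Fintype.card_fin]
    push_cast
    ring
  rw [c1] at h1
  rw [c2] at h2
  refine h5.trans ((add_le_add h1 h2).trans (le_of_eq ?_))
  field_simp
  ring

theorem E2_le [Fintype V] (n g lam : ℕ) (hn : g < n) :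
    ((B.E2 n g lam).ncard : ℝ) ≤ k * Fintype.card V * n * g /
      (((n : ℝ) - g) * (lam + 1)) * Nat.card (B.S n) := by
  classical
  have := Fintype.ofFinite (B.S n)
  set N : ℝ := (Nat.card (B.S n) : ℝ) with hN
  set δ : ℝ := (n : ℝ) - g with hδ
  have hδ0 : 0 < δ := by
    have : (g : ℝ) < n := by exact_mod_cast hn
    rw [hδ]; linarith
  have hδn : ((n - g : ℕ) : ℝ) = δ := by
    rw [Nat.cast_sub hn.le]
  have hone : ∀ p : Fin k × (V × Fin n),
      (((univ : Finset (B.S n)).filter (fun s => minimalPeriod (B.T s p.1) p.2 < g)).card : ℝ) ≤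
        g / δ * N := by
    intro p
    have h1 := B.single_count (fun _ : B.S n => True) (fun _ _ _ _ _ => trivial) p.1 p.2 g
    have h2 : {s : B.S n | True ∧ minimalPeriod (B.T s p.1) p.2 < g}.ncard =
        ((univ : Finset (B.S n)).filter (fun s => minimalPeriod (B.T s p.1) p.2 < g)).card := by
      rw [← Set.ncard_coe_finset]
      congr 1
      ext s
      simp
    rw [h2, Set.ofPred_true, Set.ncard_univ] at h1
    have h3 : ((((univ : Finset (B.S n)).filter
        (fun s => minimalPeriod (B.T s p.1) p.2 < g)).card : ℝ)) * ((n - g : ℕ) : ℝ) ≤ g * N := by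
      rw [hN]; exact_mod_cast h1
    rw [hδn] at h3
    rw [div_mul_eq_mul_div, le_div_iff₀ hδ0]
    exact h3
  -- double counting
  have h1 : ∑ s : B.S n, (((univ : Finset (Fin k × (V × Fin n))).filter
      (fun p => minimalPeriod (B.T s p.1) p.2 < g)).card : ℝ) =
      ∑ p : Fin k × (V × Fin n), (((univ : Finset (B.S n)).filter
        (fun s => minimalPeriod (B.T s p.1) p.2 < g)).card : ℝ) := by
    simp only [card_filter]
    push_cast
    rw [sum_comm]
  have hpt : ∀ s ∈ (Set.toFinite (B.E2 n g lam)).toFinset, ((lam : ℝ) + 1) ≤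
      (((univ : Finset (Fin k × (V × Fin n))).filter
      (fun p => minimalPeriod (B.T s p.1) p.2 < g)).card : ℝ) := by
    intro s hs
    have h30 : s ∈ B.E2 n g lam := (Set.Finite.mem_toFinset _).1 hs
    have h3 : lam < {p : Fin k × (V × Fin n) | minimalPeriod (B.T s p.1) p.2 < g}.ncard := h30
    have h4 : {p : Fin k × (V × Fin n) | minimalPeriod (B.T s p.1) p.2 < g} =
        (((univ : Finset (Fin k × (V × Fin n))).filter
          (fun p => minimalPeriod (B.T s p.1) p.2 < g) : Finset _) : Set _) := by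
      ext p
      simp
    rw [h4, Set.ncard_coe_finset] at h3
    have h5 : lam + 1 ≤ ((univ : Finset (Fin k × (V × Fin n))).filter
          (fun p => minimalPeriod (B.T s p.1) p.2 < g)).card := h3
    have h6 : ((lam + 1 : ℕ) : ℝ) ≤ (((univ : Finset (Fin k × (V × Fin n))).filter
          (fun p => minimalPeriod (B.T s p.1) p.2 < g)).card : ℝ) := Nat.cast_le.2 h5
    rw [Nat.cast_add, Nat.cast_one] at h6
    exact h6
  have h2 : ((B.E2 n g lam).ncard : ℝ) * (lam + 1) ≤ ∑ s : B.S n,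
      (((univ : Finset (Fin k × (V × Fin n))).filter
      (fun p => minimalPeriod (B.T s p.1) p.2 < g)).card : ℝ) := by
    have h3 := card_nsmul_le_sum _ _ _ hpt
    rw [nsmul_eq_mul, ← Set.ncard_eq_toFinset_card] at h3
    exact h3.trans (sum_le_sum_of_subset_of_nonneg (subset_univ _)
      (fun _ _ _ => Nat.cast_nonneg _))
  rw [h1] at h2
  have h3 := h2.trans (sum_le_sum fun p _ => hone p)
  rw [sum_const, nsmul_eq_mul, card_univ] at h3
  have c1 : (Fintype.card (Fin k × (V × Fin n)) : ℝ) = k * Fintype.card V * n := by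
    simp only [Fintype.card_prod, Fintype.card_fin]
    push_cast
    ring
  rw [c1] at h3
  have hl : (0 : ℝ) < lam + 1 := by positivity
  rw [div_mul_eq_mul_div, le_div_iff₀ (by positivity)]
  have h4 : ((B.E2 n g lam).ncard : ℝ) * (δ * (lam + 1)) =
      δ * (((B.E2 n g lam).ncard : ℝ) * (lam + 1)) := by ring
  rw [h4]
  refine (mul_le_mul_of_nonneg_left h3 hδ0.le).trans (le_of_eq ?_)
  field_simp

end Base

end Pool.Agent.Run7.H778.RL
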