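import Pool.Agent.W111.LAR.Top
import Pool.Agent.W111.LAR.Odd

set_option autoImplicit false

/-!
Linear arboricity when the short cyclic components are few and far from each other.
-/

namespace Pool.Agent.Run7.H778.RL

open Finset SimpleGraph H931R3.LA Pool.Agent.W111.LAR

/-- A selection of one edge from each cyclic component without conflicts gives a covering by linear
forests (the second part of the proof of the starting result `cov_matching`). -/
theorem cov_of_sel {V κ : Type} [Finite V] [Fintype κ] (H : κ → SimpleGraph V)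
    (P : SimpleGraph V) (hdeg : ∀ i v, ((H i).neighborSet v).ncard ≤ 2)
    (hP : ∀ v, (P.neighborSet v).ncard ≤ 1) (key : V → ℕ)
    (hk1 : ∀ v w, P.Adj v w → key v = key w)
    (hk2 : ∀ v w, key v = key w → v = w ∨ P.Adj v w)
    (s : II H → EE H) (hs : ∀ c, cl (s c) = c)
    (hind : ∀ c c', c ≠ c' → ¬ conf P key (s c) (s c')) :
    Cov (P ⊔ ⨆ i, H i) (Fintype.card κ + 1) := by
  classical
  -- selected edges at a vertex
  have hselinc : ∀ v u, (selGraph aa bb s).Adj v u → ∃ c, s(aa (s c), bb (s c)) = s(v, u) := by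
    rintro v u ⟨_, c, hc⟩
    refine ⟨c, ?_⟩
    rcases hc with ⟨h1, h2⟩ | ⟨h1, h2⟩
    · rw [h1, h2]
    · rw [h1, h2, Sym2.eq_swap]
  have hselincv : ∀ v u c, s(aa (s c), bb (s c)) = s(v, u) → (aa (s c) = v ∨ bb (s c) = v) := by
    intro v u c h
    rcases Sym2.eq_iff.1 h with ⟨h1, _⟩ | ⟨_, h1⟩
    · exact Or.inl h1
    · exact Or.inr h1
  have hseluniq : ∀ v u u', (selGraph aa bb s).Adj v u → (selGraph aa bb s).Adj v u' →
      u = u' := by
    intro v u u' h h'
    obtain ⟨c, hc⟩ := hselinc v u h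
    obtain ⟨c', hc'⟩ := hselinc v u' h'
    have hcc : c = c' := by
      by_contra hne
      exact hind c c' hne ⟨by rw [hs, hs]; exact hne, Or.inl ⟨v, hselincv v u c hc,
        hselincv v u' c' hc'⟩⟩
    subst hcc
    exact Sym2.congr_right.1 (hc.symm.trans hc')
  have hPuniq : ∀ v w w', P.Adj v w → P.Adj v w' → w = w' := fun v w w' h h' =>
    (Set.ncard_le_one (Set.toFinite _)).1 (hP v) w h w' h'
  have hup : ∀ v u, (selGraph aa bb s).Adj v u → key v < key u →
      ∃ c, s(aa (s c), bb (s c)) = s(v, u) ∧ upAt key (s c) v := by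
    intro v u h hlt
    obtain ⟨c, hc⟩ := hselinc v u h
    refine ⟨c, hc, ?_⟩
    rcases Sym2.eq_iff.1 hc with ⟨h1, h2⟩ | ⟨h1, h2⟩
    · exact Or.inl ⟨h1, by rw [h2]; exact hlt⟩
    · exact Or.inr ⟨h2, by rw [h1]; exact hlt⟩
  have hQ : IsLF (P ⊔ selGraph aa bb s) := by
    constructor
    · intro v0 c hc
      -- the two neighbours on the cycle
      have two : ∀ w ∈ c.support, ∃ x y, P.Adj w x ∧ (selGraph aa bb s).Adj w y ∧ x ≠ y ∧
          x ∈ c.support ∧ y ∈ c.support := by
        intro w hw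
        have h2 := hc.ncard_neighborSet_toSubgraph_eq_two hw
        obtain ⟨x, y, hxy, hset⟩ := Set.ncard_eq_two.1 h2
        have hx : c.toSubgraph.Adj w x := by
          have : x ∈ c.toSubgraph.neighborSet w := by rw [hset]; simp
          exact this
        have hy : c.toSubgraph.Adj w y := by
          have : y ∈ c.toSubgraph.neighborSet w := by rw [hset]; simp
          exact this
        have hxs : x ∈ c.support := by
          have := hx.snd_mem
          rwa [Walk.mem_verts_toSubgraph] at this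
        have hys : y ∈ c.support := by
          have := hy.snd_mem
          rwa [Walk.mem_verts_toSubgraph] at this
        rcases hx.adj_sub with hx1 | hx1 <;> rcases hy.adj_sub with hy1 | hy1
        · exact absurd (hPuniq w x y hx1 hy1) hxy
        · exact ⟨x, y, hx1, hy1, hxy, hxs, hys⟩
        · exact ⟨y, x, hy1, hx1, hxy.symm, hys, hxs⟩
        · exact absurd (hseluniq w x y hx1 hy1) hxy
      obtain ⟨w, hw, hmin⟩ := exists_min_image c.support.toFinset key ⟨v0, by simp⟩
      have hw' : w ∈ c.support := by simpa using hw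
      have hmin' : ∀ u ∈ c.support, key w ≤ key u := fun u hu => hmin u (by simpa using hu)
      obtain ⟨x, y, hx, hy, hxy, hxs, hys⟩ := two w hw'
      have hlt : key w < key y := by
        refine lt_of_le_of_ne (hmin' y hys) fun h => ?_
        rcases hk2 w y h with h1 | h1
        · exact hy.ne h1
        · exact hxy (hPuniq w x y hx h1)
      obtain ⟨x', y', hx', hy', hxy', _, hys'⟩ := two x hxs
      have hxw : x' = w := hPuniq x x' w hx' hx.symm
      have hlt' : key x < key y' := by
        refine lt_of_le_of_ne ((hk1 w x hx) ▸ hmin' y' hys') fun h => ?_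
        rcases hk2 x y' h with h1 | h1
        · exact hy'.ne h1
        · exact hxy' (hPuniq x x' y' hx' h1)
      obtain ⟨c1, hc1, hu1⟩ := hup w y hy hlt
      obtain ⟨c2, hc2, hu2⟩ := hup x y' hy' hlt'
      have hne : c1 ≠ c2 := by
        rintro rfl
        have := hc1.symm.trans hc2
        rcases Sym2.eq_iff.1 this with ⟨h1, _⟩ | ⟨h1, _⟩
        · exact hx.ne h1
        · exact hxy' (hxw.trans h1)
      exact hind c1 c2 hne ⟨by rw [hs, hs]; exact hne, Or.inr ⟨w, x, hx, hu1, hu2⟩⟩
    · intro v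
      have h1 : (P ⊔ selGraph aa bb s).neighborSet v ⊆ P.neighborSet v ∪
          (selGraph aa bb s).neighborSet v := by
        intro u hu
        rcases hu with hu | hu
        · exact Or.inl hu
        · exact Or.inr hu
      have h2 := Set.ncard_le_ncard h1 (Set.toFinite _)
      have h3 := Set.ncard_union_le (P.neighborSet v) ((selGraph aa bb s).neighborSet v)
      have h4 : ((selGraph aa bb s).neighborSet v).ncard ≤ 1 :=
        (Set.ncard_le_one (Set.toFinite _)).2 fun u hu u' hu' => hseluniq v u u' hu hu'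
      have h5 := hP v
      omega
  have hmain := assemble hdeg s hs (P ⊔ selGraph aa bb s) hQ
    (fun c => Or.inr ⟨ends_ne _, c, Or.inl ⟨rfl, rfl⟩⟩)
  have hle : selGraph aa bb s ≤ ⨆ i, H i := by
    rintro u v ⟨_, c, hc⟩
    rw [iSup_adj]
    refine ⟨(s c).1.1, ?_⟩
    rcases hc with ⟨h1, h2⟩ | ⟨h1, h2⟩
    · rw [← h1, ← h2]; exact adj_ends _
    · rw [← h1, ← h2]; exact (adj_ends _).symm
  rwa [sup_assoc, sup_eq_right.2 hle] at hmain


section

variable {V κ : Type} {H : κ → SimpleGraph V}

/-- `v` is an end of `e`. -/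
def inc (e : EE H) (v : V) : Prop := aa e = v ∨ bb e = v

theorem inc_cyc {e : EE H} {v : V} (h : inc e v) (c : II H) (hc : cl e = c) :
    Cyc (H c.1.1) v ∧ csize (H c.1.1) v = csize (H c.1.1) c.1.2 ∧ (H c.1.1).Reachable v c.1.2 := by
  have h1 := (cl_iff e c).1 hc
  have h2 := ends_reach e v h
  rw [h1.1] at h2
  have h3 : (H c.1.1).Reachable v c.1.2 := h2.trans h1.2
  exact ⟨c.2.1.trans h3.symm, csize_eq h3, h3⟩

theorem cl_of_reach {c c' : II H} (hi : c.1.1 = c'.1.1) {v w : V}
    (hv : (H c.1.1).Reachable v c.1.2) (hw : (H c'.1.1).Reachable w c'.1.2)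
    (h : (H c.1.1).Reachable v w) : c = c' := by
  obtain ⟨⟨i, x⟩, hx1, hx2⟩ := c
  obtain ⟨⟨j, y⟩, hy1, hy2⟩ := c'
  simp only at hi hv hw h hx2 hy2
  subst hi
  have h1 : (H i).Reachable x y := hv.symm.trans (h.trans hw)
  have h2 : rep (H i) x = rep (H i) y := rep_eq h1
  have h3 : x = y := by rw [← hx2, ← hy2, h2]
  subst h3
  rfl

/-- The neighbourhood of the edge `f`. -/
noncomputable def nbh [Fintype V] [DecidableEq V] (P : SimpleGraph V) (f : EE H) : Finset V :=
  by classical exact univ.filter (fun w => ∃ v, inc f v ∧ (v = w ∨ P.Adj v w))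

theorem mem_nbh [Fintype V] [DecidableEq V] (P : SimpleGraph V) (f : EE H) (w : V) :
    w ∈ nbh P f ↔ ∃ v, inc f v ∧ (v = w ∨ P.Adj v w) := by
  classical
  simp [nbh]

theorem card_nbh [Fintype V] [DecidableEq V] (P : SimpleGraph V)
    (hP : ∀ v, (P.neighborSet v).ncard ≤ 1) (f : EE H) : (nbh P f).card ≤ 4 := by
  classical
  have h1 : ((nbh P f : Finset V) : Set V) ⊆
      (({aa f} ∪ P.neighborSet (aa f)) ∪ ({bb f} ∪ P.neighborSet (bb f))) := by
    intro w hw
    obtain ⟨v, hv, hvw⟩ := (mem_nbh P f w).1 (mem_coe.1 hw)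
    rcases hv with rfl | rfl
    · left
      rcases hvw with rfl | h
      · left; simp
      · right; exact h
    · right
      rcases hvw with rfl | h
      · left; simp
      · right; exact h
  rw [← Set.ncard_coe_finset]
  have h2 := Set.ncard_le_ncard h1 (Set.toFinite _)
  have h3 := Set.ncard_union_le ({aa f} ∪ P.neighborSet (aa f)) ({bb f} ∪ P.neighborSet (bb f))
  have h4 := Set.ncard_union_le {aa f} (P.neighborSet (aa f))
  have h5 := Set.ncard_union_le {bb f} (P.neighborSet (bb f))
  have h6 := hP (aa f)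
  have h7 := hP (bb f)
  rw [Set.ncard_singleton] at h4 h5
  omega

open Classical in
theorem star_le [Fintype V] [Fintype κ] [Fintype (EE H)] (i : κ) (v : V) :
    ((univ : Finset (EE H)).filter (fun e => inc e v ∧ e.1.1 = i)).card ≤ 2 := by
  have h1 : (univ : Finset (EE H)).filter (fun e => inc e v ∧ e.1.1 = i) =
      (Pool.Agent.W111.LAR.star aa bb (univ : Finset (EE H)) v).filter (fun e => e.1.1 = i) := by
    ext e
    rw [mem_filter, mem_filter, Pool.Agent.W111.LAR.star, mem_filter]
    exact ⟨fun h => ⟨⟨h.1, h.2.1⟩, h.2.2⟩, fun h => ⟨h.1.1, h.1.2, h.2⟩⟩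
  rw [h1]
  by_cases hc : Cyc (H i) v
  · exact (cnt i v hc).le
  · rw [cnt0 i v hc]
    simp

open Classical in
theorem cf_card [Fintype V] [Fintype κ] [Fintype (EE H)] (P : SimpleGraph V)
    (hP : ∀ v, (P.neighborSet v).ncard ≤ 1) (f : EE H) :
    ((univ : Finset (EE H)).filter (fun e => ∃ v, inc e v ∧ v ∈ nbh P f)).card ≤
      8 * Fintype.card κ := by
  have h1 : (univ : Finset (EE H)).filter (fun e => ∃ v, inc e v ∧ v ∈ nbh P f) ⊆
      (nbh P f).biUnion (fun v => (univ : Finset κ).biUnion (fun i =>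
        (univ : Finset (EE H)).filter (fun e => inc e v ∧ e.1.1 = i))) := by
    intro e he
    obtain ⟨_, v, hv, hv2⟩ := mem_filter.1 he
    exact mem_biUnion.2 ⟨v, hv2, mem_biUnion.2 ⟨e.1.1, mem_univ _,
      mem_filter.2 ⟨mem_univ _, hv, rfl⟩⟩⟩
  have h2 := (card_le_card h1).trans card_biUnion_le
  have h3 : ∀ v ∈ nbh P f, ((univ : Finset κ).biUnion (fun i =>
        (univ : Finset (EE H)).filter (fun e => inc e v ∧ e.1.1 = i))).card ≤
          2 * Fintype.card κ := by
    intro v _
    refine card_biUnion_le.trans ((sum_le_sum fun i _ => star_le i v).trans ?_)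
    rw [sum_const, smul_eq_mul, card_univ, mul_comm]
  have h4 := h2.trans (sum_le_sum h3)
  rw [sum_const, smul_eq_mul] at h4
  have h5 := card_nbh P hP f
  calc _ ≤ _ := h4
    _ ≤ 4 * (2 * Fintype.card κ) := Nat.mul_le_mul_right _ h5
    _ = 8 * Fintype.card κ := by ring

end

/-- **Few short components.**  If at most `lam` pairs `(i, v)` lie in short cyclic components, and
no vertex of a short cyclic component belongs or is `P`-adjacent to a vertex of another cyclic
component with less than `L` vertices, then `P ⊔ ⨆ i, H i` is covered by one more linear forest. -/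
theorem cov_sparse {V κ : Type} [Finite V] [Fintype κ] (H : κ → SimpleGraph V)
    (P : SimpleGraph V) (hdeg : ∀ i v, ((H i).neighborSet v).ncard ≤ 2)
    (hP : ∀ v, (P.neighborSet v).ncard ≤ 1) (lam L : ℕ) (hL : 16 * Fintype.card κ + 8 * lam ≤ L)
    (h1 : {p : κ × V | Cyc (H p.1) p.2 ∧ csize (H p.1) p.2 < 16 * Fintype.card κ}.ncard ≤ lam)
    (h2 : ∀ i j v w, Cyc (H i) v → csize (H i) v < 16 * Fintype.card κ → (v = w ∨ P.Adj v w) →
      Cyc (H j) w → csize (H j) w < L → i = j ∧ (H i).Reachable v w) :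
    Cov (P ⊔ ⨆ i, H i) (Fintype.card κ + 1) := by
  classical
  have := Fintype.ofFinite V
  have : Fintype (EE H) := Fintype.ofFinite (EE H)
  have : Fintype (II H) := Fintype.ofFinite (II H)
  obtain ⟨key, hk1, hk2⟩ := exists_key P hP
  set g := 16 * Fintype.card κ with hg
  -- an edge in each class
  have hne : ∀ c : II H, ∃ e : EE H, cl e = c := by
    intro c
    have h3 : 0 < (univ.filter (fun e : EE H => cl e = c)).card := by
      rw [class_card]
      exact csize_pos _ _
    obtain ⟨e, he⟩ := card_pos.1 h3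
    exact ⟨e, (mem_filter.1 he).2⟩
  choose e0 he0 using hne
  -- short classes
  let Sh : Finset (II H) := univ.filter (fun c => csize (H c.1.1) c.1.2 < g)
  have hSh : ∀ c, c ∈ Sh ↔ csize (H c.1.1) c.1.2 < g := fun c => by simp [Sh]
  have hShc : Sh.card ≤ lam := by
    refine le_trans ?_ h1
    have h3 : ((Sh.image (fun c : II H => c.1) : Finset (κ × V)) : Set (κ × V)) ⊆
        {p : κ × V | Cyc (H p.1) p.2 ∧ csize (H p.1) p.2 < g} := by
      intro p hp
      obtain ⟨c, hc, rfl⟩ := mem_image.1 (mem_coe.1 hp)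
      exact ⟨c.2.1, (hSh c).1 hc⟩
    have h4 := Set.ncard_le_ncard h3 (Set.toFinite _)
    rw [Set.ncard_coe_finset, card_image_of_injective _ Subtype.val_injective] at h4
    exact h4
  -- the zone
  let Z : Finset V := Sh.biUnion (fun c => nbh P (e0 c))
  have hZ : Z.card ≤ 4 * lam := by
    refine card_biUnion_le.trans ((sum_le_sum fun c _ => card_nbh P hP (e0 c)).trans ?_)
    rw [sum_const, smul_eq_mul, mul_comm]
    exact Nat.mul_le_mul_left _ hShc
  have hZmem : ∀ c ∈ Sh, ∀ v w, inc (e0 c) v → (v = w ∨ P.Adj v w) → w ∈ Z := by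
    intro c hc v w hv hvw
    exact mem_biUnion.2 ⟨c, hc, (mem_nbh P _ w).2 ⟨v, hv, hvw⟩⟩
  have hZex : ∀ w ∈ Z, ∃ c ∈ Sh, ∃ v, inc (e0 c) v ∧ (v = w ∨ P.Adj v w) := by
    intro w hw
    obtain ⟨c, hc, hw2⟩ := mem_biUnion.1 hw
    exact ⟨c, hc, (mem_nbh P _ w).1 hw2⟩
  have hZfar : ∀ w ∈ Z, ∀ (c : II H), (H c.1.1).Reachable w c.1.2 →
      csize (H c.1.1) c.1.2 < L → c ∈ Sh := by
    intro w hw c hwc hcL
    obtain ⟨c', hc', v, hv, hvw⟩ := hZex w hw
    obtain ⟨q1, q2, q3⟩ := inc_cyc hv c' (he0 c')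
    obtain ⟨q4, q5⟩ := h2 c'.1.1 c.1.1 v w q1 (by rw [q2]; exact (hSh c').1 hc') hvw
      (c.2.1.trans hwc.symm) (by rw [csize_eq hwc]; exact hcL)
    rw [← cl_of_reach q4 q3 hwc q5]
    exact hc'
  -- available edges
  let av : II H → Finset (EE H) := fun c => univ.filter (fun e => cl e = c ∧ aa e ∉ Z ∧ bb e ∉ Z)
  have hav : ∀ c, c ∉ Sh → g ≤ (av c).card := by
    intro c hc
    have hcg : g ≤ csize (H c.1.1) c.1.2 := by
      have := (hSh c).not.1 hc
      omega
    have hcc := class_card c
    by_cases hcL : csize (H c.1.1) c.1.2 < L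
    · have h3 : univ.filter (fun e : EE H => cl e = c) ⊆ av c := by
        intro e he
        have he2 := (mem_filter.1 he).2
        refine mem_filter.2 ⟨mem_univ _, he2, ?_, ?_⟩
        · intro hz
          exact hc (hZfar _ hz c (inc_cyc (Or.inl rfl) c he2).2.2 hcL)
        · intro hz
          exact hc (hZfar _ hz c (inc_cyc (Or.inr rfl) c he2).2.2 hcL)
      have h4 := card_le_card h3
      omega
    · have h3 : univ.filter (fun e : EE H => cl e = c) ⊆ av c ∪
          Z.biUnion (fun z => univ.filter (fun e => inc e z ∧ e.1.1 = c.1.1)) := by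
        intro e he
        have he2 := (mem_filter.1 he).2
        have he3 := ((cl_iff e c).1 he2).1
        rw [mem_union]
        by_cases ha : aa e ∈ Z
        · right
          exact mem_biUnion.2 ⟨_, ha, mem_filter.2 ⟨mem_univ _, Or.inl rfl, he3⟩⟩
        · by_cases hb : bb e ∈ Z
          · right
            exact mem_biUnion.2 ⟨_, hb, mem_filter.2 ⟨mem_univ _, Or.inr rfl, he3⟩⟩
          · left
            exact mem_filter.2 ⟨mem_univ _, he2, ha, hb⟩
      have h4 := (card_le_card h3).trans (card_union_le _ _)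
      have h5 : (Z.biUnion (fun z => univ.filter
          (fun e : EE H => inc e z ∧ e.1.1 = c.1.1))).card ≤ 8 * lam := by
        refine card_biUnion_le.trans ((sum_le_sum fun z _ => star_le c.1.1 z).trans ?_)
        rw [sum_const, smul_eq_mul]
        omega
      omega
  -- the transversal for the long classes
  obtain ⟨t, ht1, ht2⟩ : ∃ t : {c : II H // c ∉ Sh} → EE H, (∀ c, t c ∈ av c.1) ∧
      ∀ c c', c ≠ c' → ∀ v w, inc (t c) v → inc (t c') w → ¬ (v = w ∨ P.Adj v w) := by
    rcases Nat.eq_zero_or_pos (Fintype.card κ) with h0 | h0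
    · have hem : IsEmpty κ := Fintype.card_eq_zero_iff.1 h0
      have : IsEmpty {c : II H // c ∉ Sh} := ⟨fun c => hem.elim c.1.1.1⟩
      exact ⟨fun c => isEmptyElim c, fun c => isEmptyElim c, fun c => isEmptyElim c⟩
    · have hLpos : 0 < g := by omega
      have hem : ∀ c : {c : II H // c ∉ Sh}, ∃ f : Fin g → EE H, Function.Injective f ∧
          ∀ i, f i ∈ av c.1 := by
        intro c
        have h3 : Fintype.card (Fin g) ≤ Fintype.card {e : EE H // e ∈ av c.1} := by
          rw [Fintype.card_fin, Fintype.card_coe]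
          exact hav c.1 c.2
        obtain ⟨f⟩ := Function.Embedding.nonempty_of_card_le h3
        exact ⟨fun i => (f i).1, fun i j h => f.injective (Subtype.ext h), fun i => (f i).2⟩
      choose em hem1 hem2 using hem
      have : Nonempty (Fin g) := ⟨⟨0, hLpos⟩⟩
      obtain ⟨f, hf⟩ := Pool.Agent.H931R2.Haxell.finite (I := {c : II H // c ∉ Sh}) (S := Fin g)
        (adj := fun x y => ∃ v w, inc (em x.1 x.2) v ∧ inc (em y.1 y.2) w ∧ (v = w ∨ P.Adj v w))
        (by
          rintro x y ⟨v, w, hv, hw, hvw⟩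
          exact ⟨w, v, hw, hv, hvw.imp Eq.symm SimpleGraph.Adj.symm⟩) (by
          intro K hK Z' hZ'
          by_contra hcon
          push Not at hcon
          have hsub : K ×ˢ (univ : Finset (Fin g)) ⊆ Z'.biUnion (fun z =>
              univ.filter (fun x : {c : II H // c ∉ Sh} × Fin g => ∃ v, inc (em x.1 x.2) v ∧
                v ∈ nbh P (em z.1 z.2))) := by
            intro x hx
            obtain ⟨z, hz, v, w, hv, hw, hvw⟩ := hcon x.1 (mem_product.1 hx).1 x.2
            refine mem_biUnion.2 ⟨z, hz, mem_filter.2 ⟨mem_univ _, v, hv, ?_⟩⟩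
            exact (mem_nbh P _ _).2 ⟨w, hw, hvw.imp Eq.symm SimpleGraph.Adj.symm⟩
          have h3 := (card_le_card hsub).trans card_biUnion_le
          have h4 : ∀ z ∈ Z', (univ.filter (fun x : {c : II H // c ∉ Sh} × Fin g =>
              ∃ v, inc (em x.1 x.2) v ∧ v ∈ nbh P (em z.1 z.2))).card ≤ 8 * Fintype.card κ := by
            intro z _
            refine le_trans ?_ (cf_card P hP (em z.1 z.2))
            refine card_le_card_of_injOn (fun x => em x.1 x.2) ?_ ?_
            · intro x hx
              simp only [coe_filter, mem_univ, true_and, Set.mem_ofPred_eq] at hx ⊢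
              exact hx
            · rintro ⟨c, i⟩ _ ⟨c', i'⟩ _ h
              have h5 : em c i = em c' i' := h
              have h6 : c = c' := by
                apply Subtype.ext
                rw [← (mem_filter.1 (hem2 c i)).2.1, ← (mem_filter.1 (hem2 c' i')).2.1, h5]
              subst h6
              rw [hem1 c h5]
          have h5 := h3.trans (sum_le_sum h4)
          rw [sum_const, smul_eq_mul, card_product, card_univ, Fintype.card_fin] at h5
          have hK1 : 1 ≤ K.card := card_pos.2 hK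
          have h6 : Z'.card * (8 * Fintype.card κ) ≤
              (2 * (K.card - 1)) * (8 * Fintype.card κ) := Nat.mul_le_mul_right _ hZ'
          have h7 : (2 * (K.card - 1)) * (8 * Fintype.card κ) = (K.card - 1) * g := by
            rw [hg]; ring
          have h8 : K.card * g = (K.card - 1) * g + g := by
            obtain ⟨t, ht⟩ : ∃ t, K.card = t + 1 := ⟨K.card - 1, by omega⟩
            rw [ht, Nat.add_sub_cancel]
            ring
          omega) univ
      refine ⟨fun c => em c (f c), fun c => hem2 c _, fun c c' h v w hv hw hvw => ?_⟩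
      exact hf c (mem_univ _) c' (mem_univ _) h ⟨v, w, hv, hw, hvw⟩
  let s : II H → EE H := fun c => if h : c ∈ Sh then e0 c else t ⟨c, h⟩
  have hs1 : ∀ c (_ : c ∈ Sh), s c = e0 c := fun c h => dif_pos h
  have hs2 : ∀ c (h : c ∉ Sh), s c = t ⟨c, h⟩ := fun c h => dif_neg h
  have hs : ∀ c, cl (s c) = c := by
    intro c
    by_cases h : c ∈ Sh
    · rw [hs1 c h]; exact he0 c
    · rw [hs2 c h]; exact (mem_filter.1 (ht1 ⟨c, h⟩)).2.1
  have hlong : ∀ c (_ : c ∉ Sh) w, inc (s c) w → w ∉ Z := by
    intro c h w hw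
    rw [hs2 c h] at hw
    have h3 := (mem_filter.1 (ht1 ⟨c, h⟩)).2.2
    rcases hw with rfl | rfl
    · exact h3.1
    · exact h3.2
  have hcf : ∀ c c', c ≠ c' → ∀ v w, inc (s c) v → inc (s c') w → ¬ (v = w ∨ P.Adj v w) := by
    intro c c' hcc v w hv hw hvw
    by_cases h : c ∈ Sh
    · have hv0 := hv
      rw [hs1 c h] at hv0
      have hwZ := hZmem c h v w hv0 hvw
      by_cases h' : c' ∈ Sh
      · obtain ⟨q1, q2, q3⟩ := inc_cyc hv c (hs c)
        obtain ⟨r1, r2, r3⟩ := inc_cyc hw c' (hs c')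
        have hlt := (hSh c').1 h'
        obtain ⟨q4, q5⟩ := h2 c.1.1 c'.1.1 v w q1 (by rw [q2]; exact (hSh c).1 h) hvw r1
          (by rw [r2]; omega)
        exact hcc (cl_of_reach q4 q3 r3 q5)
      · exact hlong c' h' w hw hwZ
    · by_cases h' : c' ∈ Sh
      · have hw0 := hw
        rw [hs1 c' h'] at hw0
        exact hlong c h v hv (hZmem c' h' w v hw0 (hvw.imp Eq.symm SimpleGraph.Adj.symm))
      · rw [hs2 c h] at hv
        rw [hs2 c' h'] at hw
        exact ht2 ⟨c, h⟩ ⟨c', h'⟩ (fun e => hcc (congrArg Subtype.val e)) v w hv hw hvw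
  refine cov_of_sel H P hdeg hP key hk1 hk2 s hs ?_
  rintro c c' hcc ⟨_, h3⟩
  rcases h3 with ⟨v, hv, hw⟩ | ⟨v, w, hvw, hv, hw⟩
  · exact hcf c c' hcc v v hv hw (Or.inl rfl)
  · exact hcf c c' hcc v w hv.inc hw.inc (Or.inr hvw)

end Pool.Agent.Run7.H778.RL
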