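import Pool.Agent.Run7.h778.RL.Count
import Pool.Agent.R448.LSigma

set_option autoImplicit false

/-!
Linear arboricity of random lifts.
-/

namespace Pool.Agent.Run7.H778.RL

open Finset SimpleGraph H931R3.LA Pool.Agent.W111.LAR Function

/-- In a regular graph covered by `k` permutations the arcs are distinct. -/
theorem arcs_distinct {V : Type} [Finite V] {G : SimpleGraph V} {k : ℕ}
    (hdeg : ∀ v, (G.neighborSet v).ncard = 2 * k) (τ : Fin k → Equiv.Perm V)
    (h : ∀ u v, G.Adj u v ↔ (∃ i, τ i u = v) ∨ ∃ i, τ i v = u) :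
    (∀ i j u, τ i u = τ j u → i = j) ∧ ∀ i j u v, τ i u = v → τ j v = u → False := by
  classical
  have := Fintype.ofFinite V
  have key : ∀ u, (univ.image (fun i => τ i u)).card = k ∧
      Disjoint (univ.image (fun i => τ i u)) (univ.image (fun i => (τ i).symm u)) := by
    intro u
    have h1 : ((univ.image (fun i => τ i u) ∪ univ.image (fun i => (τ i).symm u) : Finset V) :
        Set V) = G.neighborSet u := by
      ext w
      simp only [coe_union, coe_image, coe_univ, Set.image_univ, Set.mem_union, Set.mem_range,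
        SimpleGraph.mem_neighborSet]
      rw [h]
      refine or_congr Iff.rfl (exists_congr fun i => ?_)
      rw [Equiv.symm_apply_eq, eq_comm]
    have h2 := hdeg u
    rw [← h1, Set.ncard_coe_finset] at h2
    have h3 := card_union_le (univ.image (fun i => τ i u)) (univ.image (fun i => (τ i).symm u))
    have h4 : (univ.image (fun i => τ i u)).card ≤ k :=
      card_image_le.trans (by rw [card_univ, Fintype.card_fin])
    have h5 : (univ.image (fun i => (τ i).symm u)).card ≤ k :=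
      card_image_le.trans (by rw [card_univ, Fintype.card_fin])
    refine ⟨by omega, ?_⟩
    rw [← card_union_eq_card_add_card]
    omega
  constructor
  · intro i j u hij
    have h1 : (univ.image (fun i => τ i u)).card = (univ : Finset (Fin k)).card := by
      rw [(key u).1, card_univ, Fintype.card_fin]
    exact card_image_iff.1 h1 (mem_coe.2 (mem_univ i)) (mem_coe.2 (mem_univ j)) hij
  · intro i j u v hi hj
    have h1 := Finset.disjoint_left.1 (key u).2 (mem_image.2 ⟨i, mem_univ _, hi⟩)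
    refine h1 (mem_image.2 ⟨j, mem_univ _, ?_⟩)
    rw [Equiv.symm_apply_eq]
    exact hj.symm

theorem exists_base {V : Type} [Finite V] (H M : SimpleGraph V) (hMH : M ≤ H) (k : ℕ)
    (hMd : ∀ u v w, M.Adj u v → M.Adj u w → v = w)
    (hdeg : ∀ v, ((H \ M).neighborSet v).ncard = 2 * k) : ∃ B : Base V k, B.H = H := by
  classical
  obtain ⟨τ, hτ⟩ := Pool.Agent.R448.LP.exists_sigma (H \ M) k hdeg (Fin k) (by simp)
  obtain ⟨h1, h2⟩ := arcs_distinct hdeg τ hτ
  obtain ⟨ι⟩ : Nonempty (V ≃ Fin (Nat.card V)) := ⟨Finite.equivFin V⟩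
  have hadj : ∀ u v, (H \ M).Adj u v ↔ H.Adj u v ∧ ¬ M.Adj u v := fun u v => by
    rw [SimpleGraph.sdiff_adj]
  have hG : ∀ i u, H.Adj u (τ i u) ∧ ¬ M.Adj u (τ i u) := fun i u =>
    (hadj _ _).1 ((hτ _ _).2 (Or.inl ⟨i, rfl⟩))
  refine ⟨{
    H := H
    D := fun u v => (∃ i, τ i u = v) ∨ (M.Adj u v ∧ ι u < ι v)
    τ := τ
    M := M
    hD := ?_
    asym := ?_
    hτ := fun i u => Or.inl ⟨i, rfl⟩
    τinj := h1
    hM := ?_
    Mdeg := hMd }, rfl⟩
  · intro u v
    constructor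
    · intro h
      by_cases hm : M.Adj u v
      · rcases lt_trichotomy (ι u) (ι v) with h3 | h3 | h3
        · exact Or.inl (Or.inr ⟨hm, h3⟩)
        · exact absurd (ι.injective h3) hm.ne
        · exact Or.inr (Or.inr ⟨hm.symm, h3⟩)
      · rcases (hτ u v).1 ((hadj u v).2 ⟨h, hm⟩) with h3 | h3
        · exact Or.inl (Or.inl h3)
        · exact Or.inr (Or.inl h3)
    · rintro ((⟨i, rfl⟩ | ⟨h, _⟩) | (⟨i, rfl⟩ | ⟨h, _⟩))
      · exact (hG i u).1
      · exact hMH h
      · exact (hG i v).1.symm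
      · exact (hMH h).symm
  · rintro u v (⟨i, hi⟩ | ⟨h, hlt⟩) (⟨j, hj⟩ | ⟨h', hlt'⟩)
    · exact h2 i j u v hi hj
    · subst hi
      exact (hG i u).2 h'.symm
    · subst hj
      exact (hG j v).2 h.symm
    · exact absurd (hlt.trans hlt') (lt_irrefl _)
  · intro u v
    constructor
    · intro h
      refine ⟨hMH h, ?_, ?_⟩
      · rintro i rfl
        exact (hG i u).2 h
      · rintro i rfl
        exact (hG i v).2 h.symm
    · rintro ⟨h, h3, h4⟩
      by_contra hm
      rcases (hτ u v).1 ((hadj u v).2 ⟨h, hm⟩) with ⟨i, hi⟩ | ⟨i, hi⟩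
      · exact h3 i hi
      · exact h4 i hi

namespace Base

variable {V : Type} {k : ℕ} (B : Base V k)

theorem cov_of_good [Finite V] {n lam L : ℕ} (hL : 16 * k + 8 * lam ≤ L) (s : B.S n)
    (h1 : s ∉ B.E1 n (16 * k) L) (h2 : s ∉ B.E2 n (16 * k) lam) : Cov (B.lg s) (k + 1) := by
  refine cov_perms k (B.T s) (B.lg s) (B.P s) (B.P_deg s) (B.lg_adj s) lam L hL ?_ ?_
  · exact not_lt.1 h2
  · intro i j v w h3 h4 h5
    by_contra h6
    exact h1 ⟨i, j, v, w, h3, h4, h5, h6⟩

theorem main_base [Fintype V] (n : ℕ) (hn : 1 ≤ n) :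
    ({s : B.S n | ¬ Cov (B.lg s) (k + 1)}.ncard : ℝ) ≤
      (128 * (k : ℝ) ^ 3 * Fintype.card V * (16 * k + 8) + 32 * (k : ℝ) ^ 2 * Fintype.card V +
        (64 * k + 16)) / √n * Nat.card (B.S n) := by
  set K : ℝ := (k : ℝ) with hK
  set W : ℝ := (Fintype.card V : ℝ) with hW
  have hK0 : 0 ≤ K := Nat.cast_nonneg _
  have hW0 : 0 ≤ W := Nat.cast_nonneg _
  set x : ℝ := √n with hx
  have hn0 : (0 : ℝ) < n := by exact_mod_cast hn
  have hx0 : 0 < x := Real.sqrt_pos.2 hn0
  have hxx : x * x = n := Real.mul_self_sqrt hn0.le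
  have hx1 : 1 ≤ x := by
    rw [hx, Real.one_le_sqrt]
    exact_mod_cast hn
  have hN0 : (0 : ℝ) ≤ Nat.card (B.S n) := Nat.cast_nonneg _
  set N : ℝ := (Nat.card (B.S n) : ℝ) with hN
  set lam : ℕ := Nat.sqrt n with hlam
  have hlam1 : (lam : ℝ) ≤ x := by
    rw [hx]
    refine Real.le_sqrt_of_sq_le ?_
    have := Nat.sqrt_le' n
    exact_mod_cast this
  have hlam2 : x ≤ (lam : ℝ) + 1 := by
    rw [hx]
    refine (Real.sqrt_le_left (by positivity)).2 ?_
    have := (Nat.lt_succ_sqrt' n).le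
    have h2 : ((n : ℕ) : ℝ) ≤ ((Nat.succ (Nat.sqrt n) ^ 2 : ℕ) : ℝ) := by exact_mod_cast this
    push_cast at h2
    exact h2
  set L : ℕ := 16 * k + 8 * lam with hL
  have hbadN : ({s : B.S n | ¬ Cov (B.lg s) (k + 1)}.ncard : ℝ) ≤ N := by
    rw [hN]
    exact_mod_cast (Set.ncard_le_ncard (Set.subset_univ _) (Set.toFinite _)).trans
      (Set.ncard_univ _).le
  by_cases hsmall : (n : ℝ) ≤ (64 * K + 16) * x
  · have h1 : x ≤ 64 * K + 16 := by
      rw [← hxx] at hsmall
      exact le_of_mul_le_mul_right hsmall hx0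
    have h2 : 1 ≤ (128 * K ^ 3 * W * (16 * K + 8) + 32 * K ^ 2 * W + (64 * K + 16)) / x := by
      rw [le_div_iff₀ hx0, one_mul]
      have : 0 ≤ 128 * K ^ 3 * W * (16 * K + 8) + 32 * K ^ 2 * W := by positivity
      linarith
    calc _ ≤ N := hbadN
      _ = 1 * N := (one_mul _).symm
      _ ≤ _ := mul_le_mul_of_nonneg_right h2 hN0
  · push Not at hsmall
    have hLr : (L : ℝ) = 16 * K + 8 * lam := by rw [hL]; push_cast; ring
    have hgr : ((16 * k : ℕ) : ℝ) = 16 * K := by push_cast; ring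
    have hgL : 2 * ((16 * K) + (L : ℝ)) ≤ n := by
      rw [hLr]
      have : (64 * K + 16) * x = 64 * K * x + 16 * x := by ring
      have h3 : 64 * K ≤ 64 * K * x := le_mul_of_one_le_right (by positivity) hx1
      linarith
    have hlt : 16 * k + L < n := by
      have h3 : ((16 * k + L : ℕ) : ℝ) < n := by
        push_cast
        have h4 : 0 < 16 * K + (L : ℝ) ∨ 16 * K + (L : ℝ) = 0 := by
          have : 0 ≤ 16 * K + (L : ℝ) := by positivity
          rcases this.lt_or_eq with h | h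
          · exact Or.inl h
          · exact Or.inr h.symm
        rcases h4 with h4 | h4
        · linarith
        · rw [h4]; exact hn0
      exact_mod_cast h3
    have hlt2 : 16 * k < n := by omega
    have hsub : {s : B.S n | ¬ Cov (B.lg s) (k + 1)} ⊆
        B.E1 n (16 * k) L ∪ B.E2 n (16 * k) lam := by
      intro s hs
      by_contra hcon
      rw [Set.mem_union, not_or] at hcon
      exact hs (B.cov_of_good le_rfl s hcon.1 hcon.2)
    have h1 := B.E1_le n (16 * k) L hlt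
    have h2 := B.E2_le n (16 * k) lam hlt2
    have h3 := Set.ncard_le_ncard hsub (Set.toFinite _)
    have h4 := Set.ncard_union_le (B.E1 n (16 * k) L) (B.E2 n (16 * k) lam)
    have h5 : ({s : B.S n | ¬ Cov (B.lg s) (k + 1)}.ncard : ℝ) ≤
        ((B.E1 n (16 * k) L).ncard : ℝ) + ((B.E2 n (16 * k) lam).ncard : ℝ) := by
      exact_mod_cast h3.trans h4
    refine h5.trans ((add_le_add h1 h2).trans ?_)
    rw [← add_mul]
    refine mul_le_mul_of_nonneg_right ?_ hN0
    have hδ1 : (n : ℝ) / 2 ≤ (n : ℝ) - (((16 * k : ℕ) : ℝ) + L) := by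
      rw [hgr]; linarith
    have hδ2 : (n : ℝ) / 2 ≤ (n : ℝ) - ((16 * k : ℕ) : ℝ) := by
      have : (0 : ℝ) ≤ L := Nat.cast_nonneg _
      linarith
    have e1 : 2 * K ^ 2 * W * n * ((16 * k : ℕ) : ℝ) * L /
        ((n : ℝ) - (((16 * k : ℕ) : ℝ) + L)) ^ 2 ≤ 128 * K ^ 3 * W * (16 * K + 8) / x := by
      have q1 : 2 * K ^ 2 * W * n * ((16 * k : ℕ) : ℝ) * L /
        ((n : ℝ) - (((16 * k : ℕ) : ℝ) + L)) ^ 2 ≤
          2 * K ^ 2 * W * n * ((16 * k : ℕ) : ℝ) * L / ((n : ℝ) / 2) ^ 2 := by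
        refine div_le_div_of_nonneg_left (by positivity) (by positivity) ?_
        exact pow_le_pow_left₀ (by positivity) hδ1 2
      have q2 : (L : ℝ) ≤ (16 * K + 8) * x := by
        rw [hLr]
        have h3 : 16 * K ≤ 16 * K * x := le_mul_of_one_le_right (by positivity) hx1
        nlinarith
      have q3 : 2 * K ^ 2 * W * n * ((16 * k : ℕ) : ℝ) * L / ((n : ℝ) / 2) ^ 2 =
          128 * K ^ 3 * W * L / n := by
        rw [hgr]
        field_simp
        ring
      rw [q3] at q1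
      refine q1.trans ?_
      rw [div_le_div_iff₀ hn0 hx0]
      calc 128 * K ^ 3 * W * L * x ≤ 128 * K ^ 3 * W * ((16 * K + 8) * x) * x := by
            refine mul_le_mul_of_nonneg_right ?_ hx0.le
            exact mul_le_mul_of_nonneg_left q2 (by positivity)
        _ = 128 * K ^ 3 * W * (16 * K + 8) * (x * x) := by ring
        _ = 128 * K ^ 3 * W * (16 * K + 8) * n := by rw [hxx]
    have e2 : K * W * n * ((16 * k : ℕ) : ℝ) /
        (((n : ℝ) - ((16 * k : ℕ) : ℝ)) * (lam + 1)) ≤ 32 * K ^ 2 * W / x := by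
      have q1 : K * W * n * ((16 * k : ℕ) : ℝ) /
        (((n : ℝ) - ((16 * k : ℕ) : ℝ)) * (lam + 1)) ≤
          K * W * n * ((16 * k : ℕ) : ℝ) / (((n : ℝ) / 2) * x) := by
        refine div_le_div_of_nonneg_left (by positivity) (by positivity) ?_
        exact mul_le_mul hδ2 hlam2 hx0.le (by linarith [hδ2, hn0])
      refine q1.trans (le_of_eq ?_)
      rw [hgr]
      field_simp
      ring
    have e3 : 0 ≤ (64 * K + 16) / x := by positivity
    calc _ ≤ 128 * K ^ 3 * W * (16 * K + 8) / x + 32 * K ^ 2 * W / x := add_le_add e1 e2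
      _ ≤ 128 * K ^ 3 * W * (16 * K + 8) / x + 32 * K ^ 2 * W / x + (64 * K + 16) / x := by
          linarith
      _ = _ := by ring

/-- The number of arcs. -/
theorem card_arc [Finite V] : Nat.card B.Arc = B.H.edgeSet.ncard := by
  classical
  rw [← Nat.card_coe_set_eq]
  refine Nat.card_congr (Equiv.ofBijective
    (fun p : B.Arc => (⟨s(p.1.1, p.1.2), (B.hD _ _).2 (Or.inl p.2)⟩ : B.H.edgeSet)) ⟨?_, ?_⟩)
  · rintro ⟨⟨u, v⟩, h⟩ ⟨⟨u', v'⟩, h'⟩ he
    have h1 : s(u, v) = s(u', v') := congrArg Subtype.val he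
    rcases Sym2.eq_iff.1 h1 with ⟨rfl, rfl⟩ | ⟨rfl, rfl⟩
    · rfl
    · exact absurd h' (B.asym _ _ h)
  · rintro ⟨e, he⟩
    induction e using Sym2.ind with
    | _ u v =>
      rcases (B.hD u v).1 he with h | h
      · exact ⟨⟨(u, v), h⟩, rfl⟩
      · exact ⟨⟨(v, u), h⟩, Subtype.ext Sym2.eq_swap⟩

theorem card_S [Finite V] (n : ℕ) : Nat.card (B.S n) = n.factorial ^ B.H.edgeSet.ncard := by
  rw [← B.card_arc, Nat.card_fun, Nat.card_perm, Nat.card_fin]

end Base

/-- A lift of a regular graph is regular. -/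
theorem lift_regular {V : Type} [Finite V] {H : SimpleGraph V} {n : ℕ}
    {G : SimpleGraph (V × Fin n)} (hG : IsLift H n G) (x : V × Fin n) :
    (G.neighborSet x).ncard = (H.neighborSet x.1).ncard := by
  rw [← Nat.card_coe_set_eq, ← Nat.card_coe_set_eq]
  refine Nat.card_congr (Equiv.ofBijective
    (fun y : G.neighborSet x => (⟨y.1.1, hG.1 _ _ y.2⟩ : H.neighborSet x.1)) ⟨?_, ?_⟩)
  · rintro ⟨⟨w, b⟩, h⟩ ⟨⟨w', b'⟩, h'⟩ he
    have h1 : w = w' := congrArg Subtype.val he
    subst h1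
    obtain ⟨b0, _, h2⟩ := hG.2 x w (hG.1 _ _ h)
    have h3 : b = b' := (h2 b h).trans (h2 b' h').symm
    subst h3
    rfl
  · rintro ⟨w, hw⟩
    obtain ⟨b, h1, _⟩ := hG.2 x w hw
    exact ⟨⟨(w, b), h1⟩, rfl⟩

theorem main {V : Type} [Finite V] [Nonempty V] (H : SimpleGraph V) (r : ℕ) (hr : 0 < r)
    (hreg : ∀ v, (H.neighborSet v).ncard = r)
    (h : Even r ∨ ∃ M : H.Subgraph, M.IsPerfectMatching) :
    (∀ n : ℕ, {G : SimpleGraph (V × Fin n) | IsLift H n G}.ncard =
      n.factorial ^ H.edgeSet.ncard) ∧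
    ∀ n : ℕ, 1 ≤ n →
      ({G : SimpleGraph (V × Fin n) | IsLift H n G ∧ la G ≠ (r + 2) / 2}.ncard : ℝ) ≤
        400 * r ^ 4 * Nat.card V / √n * {G : SimpleGraph (V × Fin n) | IsLift H n G}.ncard := by
  classical
  have := Fintype.ofFinite V
  obtain ⟨k, B, hB, hk⟩ : ∃ (k : ℕ) (B : Base V k), B.H = H ∧ (r + 2) / 2 = k + 1 := by
    rcases Nat.even_or_odd r with he | ho
    · obtain ⟨k, hk⟩ := he
      obtain ⟨B, hB⟩ := exists_base H ⊥ bot_le k (fun u v w h => absurd h (by simp)) (fun v => by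
        rw [sdiff_bot, hreg v, hk]; ring)
      exact ⟨k, B, hB, by omega⟩
    · obtain ⟨M, hM⟩ := h.resolve_left (Nat.not_even_iff_odd.2 ho)
      obtain ⟨k, hk⟩ := ho
      have h1 := fun v => ncard_sdiff_matching hM v
      obtain ⟨B, hB⟩ := exists_base H M.spanningCoe (fun u w h => M.adj_sub h) k
        (fun u v w h h' => (Set.ncard_le_one (Set.toFinite _)).1 (h1 u).1.le v h w h')
        (fun v => by
          have h2 := (h1 v).2
          rw [hreg v] at h2
          omega)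
      exact ⟨k, B, hB, by omega⟩
  subst hB
  have hcount : ∀ n : ℕ, {G : SimpleGraph (V × Fin n) | IsLift B.H n G}.ncard =
      Nat.card (B.S n) := by
    intro n
    have h1 := B.ncard_lift (n := n) (fun _ => True)
    simp only [and_true] at h1
    rw [h1, Set.ofPred_true, Set.ncard_univ]
  refine ⟨fun n => by rw [hcount, B.card_S], ?_⟩
  intro n hn
  rw [hcount, B.ncard_lift (fun G => la G ≠ (r + 2) / 2)]
  have hconst : 128 * (k : ℝ) ^ 3 * Fintype.card V * (16 * k + 8) +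
      32 * (k : ℝ) ^ 2 * Fintype.card V + (64 * k + 16) ≤ 400 * r ^ 4 * Nat.card V := by
    rw [Nat.card_eq_fintype_card]
    have hW : (1 : ℝ) ≤ (Fintype.card V : ℝ) := by exact_mod_cast Fintype.card_pos
    have hr1 : (1 : ℝ) ≤ (r : ℝ) := by exact_mod_cast hr
    have hkr : (k : ℝ) ≤ (r : ℝ) / 2 := by
      have h1 : 2 * k ≤ r := by omega
      have h2 : ((2 * k : ℕ) : ℝ) ≤ (r : ℝ) := by exact_mod_cast h1
      push_cast at h2
      linarith
    have hk0 : (0 : ℝ) ≤ (k : ℝ) := Nat.cast_nonneg _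
    generalize (Fintype.card V : ℝ) = W at *
    generalize (k : ℝ) = K at *
    generalize (r : ℝ) = x at *
    have hx0 : 0 ≤ x := by linarith
    have e1 : K ^ 3 ≤ x ^ 3 / 8 := by
      have := pow_le_pow_left₀ hk0 hkr 3
      calc K ^ 3 ≤ (x / 2) ^ 3 := this
        _ = x ^ 3 / 8 := by ring
    have e2 : K ^ 2 ≤ x ^ 2 / 4 := by
      have := pow_le_pow_left₀ hk0 hkr 2
      calc K ^ 2 ≤ (x / 2) ^ 2 := this
        _ = x ^ 2 / 4 := by ring
    have p1 : x ^ 2 ≤ x ^ 4 := pow_le_pow_right₀ hr1 (by norm_num)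
    have p2 : x ≤ x ^ 4 := le_self_pow₀ hr1 (by norm_num)
    have p3 : 1 ≤ x ^ 4 := one_le_pow₀ hr1
    have e3 : 16 * K + 8 ≤ 16 * x := by linarith
    have q1 : 128 * K ^ 3 * W * (16 * K + 8) ≤ 256 * x ^ 4 * W := by
      calc 128 * K ^ 3 * W * (16 * K + 8) ≤ 128 * (x ^ 3 / 8) * W * (16 * x) := by
            refine mul_le_mul ?_ e3 (by positivity) (by positivity)
            refine mul_le_mul_of_nonneg_right ?_ (by linarith)
            linarith
        _ = 256 * x ^ 4 * W := by ring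
    have q2 : 32 * K ^ 2 * W ≤ 8 * x ^ 4 * W := by
      refine mul_le_mul_of_nonneg_right ?_ (by linarith)
      linarith
    have q3 : 64 * K + 16 ≤ 48 * x ^ 4 * W := by
      have : 48 * x ^ 4 ≤ 48 * x ^ 4 * W := le_mul_of_one_le_right (by positivity) hW
      linarith
    have q4 : 0 ≤ x ^ 4 * W := by positivity
    linarith
  refine le_trans ?_ ((B.main_base n hn).trans (mul_le_mul_of_nonneg_right
    (div_le_div_of_nonneg_right hconst (Real.sqrt_nonneg _)) (Nat.cast_nonneg _)))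
  have hsub : {s : B.S n | la (B.lg s) ≠ (r + 2) / 2} ⊆ {s : B.S n | ¬ Cov (B.lg s) (k + 1)} := by
    intro s hs hcov
    apply hs
    have : Nonempty (Fin n) := ⟨⟨0, hn⟩⟩
    refine la_eq_of_cov hr (fun v => ?_) (by rw [hk]; exact hcov)
    rw [lift_regular (B.isLift s), hreg]
  exact_mod_cast Set.ncard_le_ncard hsub (Set.toFinite _)

end Pool.Agent.Run7.H778.RL
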