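import Pool.Agent.Run7.h778.RL.Det

set_option autoImplicit false

/-!
The criterion of `Det` for unions of permutations, and the switching lemma.
-/

namespace Pool.Agent.Run7.H778.RL

open Finset SimpleGraph H931R3.LA Pool.Agent.W111.LAR Function

theorem cov_perms {X : Type} [Finite X] (k : ℕ) (T : Fin k → Equiv.Perm X) (G P : SimpleGraph X)
    (hP : ∀ v, (P.neighborSet v).ncard ≤ 1)
    (hG : ∀ x y, G.Adj x y ↔ P.Adj x y ∨ (∃ i, T i x = y) ∨ ∃ i, T i y = x)
    (lam L : ℕ) (hL : 16 * k + 8 * lam ≤ L)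
    (h1 : {p : Fin k × X | minimalPeriod (T p.1) p.2 < 16 * k}.ncard ≤ lam)
    (h2 : ∀ i j v w, minimalPeriod (T i) v < 16 * k → (v = w ∨ P.Adj v w) →
      minimalPeriod (T j) w < L → i = j ∧ (T i).SameCycle v w) :
    Cov G (k + 1) := by
  classical
  have hirr : ∀ i x, T i x ≠ x := fun i x h => G.loopless.irrefl x ((hG x x).2 (Or.inr (Or.inl ⟨i, h⟩)))
  let H : Fin k → SimpleGraph X := fun i =>
    { Adj := fun x y => T i x = y ∨ T i y = x
      symm.symm := fun x y h => h.symm
      loopless.irrefl := by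
        rintro x (h | h)
        · exact hirr i x h
        · exact hirr i x h }
  have hsub : ∀ i v, (H i).neighborSet v ⊆ {T i v, (T i).symm v} := by
    rintro i v w (h | h)
    · exact Or.inl h.symm
    · right
      show w = (T i).symm v
      rw [Equiv.eq_symm_apply]
      exact h
  have hdeg : ∀ i v, ((H i).neighborSet v).ncard ≤ 2 := by
    intro i v
    refine (Set.ncard_le_ncard (hsub i v) (Set.toFinite _)).trans ?_
    have h3 := Set.ncard_insert_le (T i v) ({(T i).symm v} : Set X)
    rw [Set.ncard_singleton] at h3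
    exact h3
  have hstep : ∀ i v, (H i).Reachable v (T i v) := fun i v =>
    SimpleGraph.Adj.reachable (show (H i).Adj v (T i v) from Or.inl rfl)
  have hiter : ∀ i v n, (H i).Reachable v ((T i)^[n] v) := by
    intro i v n
    induction n with
    | zero => exact Reachable.refl v
    | succ n ih =>
      rw [iterate_succ_apply']
      exact ih.trans (hstep i _)
  have hper : ∀ i v, minimalPeriod (T i) v ≤ csize (H i) v := by
    intro i v
    have h3 : Nat.card (Fin (minimalPeriod (T i) v)) ≤ Nat.card {w | (H i).Reachable v w} := by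
      refine Nat.card_le_card_of_injective
        (fun j => (⟨(T i)^[j.val] v, hiter i v j⟩ : {w | (H i).Reachable v w})) ?_
      intro a b hab
      have h4 : (T i)^[a.val] v = (T i)^[b.val] v := congrArg Subtype.val hab
      exact Fin.ext (iterate_injOn_Iio_minimalPeriod (f := T i) (x := v) a.2 b.2 h4)
    rw [Nat.card_fin, Nat.card_coe_set_eq] at h3
    exact h3
  have hsame : ∀ i v w, (T i).SameCycle v w → (H i).Reachable v w := by
    intro i v w h
    obtain ⟨n, hn⟩ := h.exists_nat_pow_eq
    rw [← hn, ← Equiv.Perm.iterate_eq_pow]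
    exact hiter i v n
  have key := cov_sparse H P hdeg hP lam L (by rw [Fintype.card_fin]; exact hL) (by
      rw [Fintype.card_fin]
      refine le_trans (Set.ncard_le_ncard ?_ (Set.toFinite _)) h1
      rintro ⟨i, v⟩ ⟨_, h3⟩
      exact lt_of_le_of_lt (hper i v) h3) (by
      rw [Fintype.card_fin]
      intro i j v w _ h3 h4 _ h5
      obtain ⟨h6, h7⟩ := h2 i j v w (lt_of_le_of_lt (hper i v) h3) h4
        (lt_of_le_of_lt (hper j w) h5)
      exact ⟨h6, hsame i v w h7⟩)
  have hsup : (P ⊔ ⨆ i, H i) = G := by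
    ext u v
    simp only [sup_adj, iSup_adj]
    rw [hG]
    refine or_congr Iff.rfl ?_
    constructor
    · rintro ⟨i, h | h⟩
      · exact Or.inl ⟨i, h⟩
      · exact Or.inr ⟨i, h⟩
    · rintro (⟨i, h⟩ | ⟨i, h⟩)
      · exact ⟨i, Or.inl h⟩
      · exact ⟨i, Or.inr h⟩
  rw [hsup, Fintype.card_fin] at key
  exact key

theorem per_pos {X : Type} [Finite X] (τ : Equiv.Perm X) (x : X) : 0 < minimalPeriod τ x :=
  minimalPeriod_pos_of_mem_periodicPts (τ.injective.mem_periodicPts x)

/-- The beginning of the orbit of `x` does not change. -/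
theorem swap_iter {X : Type} [Finite X] [DecidableEq X] (τ : Equiv.Perm X) (x z : X)
    (hz : ¬ τ.SameCycle x z) : (∀ j, j < minimalPeriod τ x → (Equiv.swap x z * τ)^[j] x = τ^[j] x) ∧
      (Equiv.swap x z * τ)^[minimalPeriod τ x] x = z := by
  set τ' := Equiv.swap x z * τ with hτ'
  have happ : ∀ y, τ' y = Equiv.swap x z (τ y) := fun y => rfl
  have hp := per_pos τ x
  have hsc : ∀ n, τ.SameCycle x (τ^[n] x) := by
    intro n
    refine ⟨(n : ℤ), ?_⟩
    rw [zpow_natCast, Equiv.Perm.iterate_eq_pow]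
  have h1 : ∀ j, j < minimalPeriod τ x → τ'^[j] x = τ^[j] x := by
    intro j
    induction j with
    | zero => intro _; rfl
    | succ j ih =>
      intro hj
      rw [iterate_succ_apply', ih (by omega), happ, ← iterate_succ_apply' τ]
      refine Equiv.swap_apply_of_ne_of_ne ?_ ?_
      · intro h
        have h2 : IsPeriodicPt τ (j + 1) x := h
        have h3 := h2.minimalPeriod_le (Nat.succ_pos j)
        omega
      · intro h
        exact hz (h ▸ hsc (j + 1))
  refine ⟨h1, ?_⟩
  obtain ⟨p, hpp⟩ : ∃ p, minimalPeriod τ x = p + 1 := ⟨_, (Nat.succ_pred_eq_of_pos hp).symm⟩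
  have h4 : τ^[p + 1] x = x := by
    rw [← hpp]
    exact isPeriodicPt_minimalPeriod τ x
  rw [hpp, iterate_succ_apply', h1 p (by omega), happ, ← iterate_succ_apply' τ, h4,
    Equiv.swap_apply_left]

/-- An orbit not meeting the transposition does not change. -/
theorem swap_iter_of {X : Type} [Finite X] [DecidableEq X] (τ : Equiv.Perm X) (x z w : X)
    (hx : ¬ τ.SameCycle w x) (hz : ¬ τ.SameCycle w z) :
    (∀ j, (Equiv.swap x z * τ)^[j] w = τ^[j] w) ∧
    minimalPeriod (Equiv.swap x z * τ) w = minimalPeriod τ w := by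
  set τ' := Equiv.swap x z * τ with hτ'
  have happ : ∀ y, τ' y = Equiv.swap x z (τ y) := fun y => rfl
  have hsc : ∀ n, τ.SameCycle w (τ^[n] w) := by
    intro n
    refine ⟨(n : ℤ), ?_⟩
    rw [zpow_natCast, Equiv.Perm.iterate_eq_pow]
  have h1 : ∀ j, τ'^[j] w = τ^[j] w := by
    intro j
    induction j with
    | zero => rfl
    | succ j ih =>
      rw [iterate_succ_apply', ih, happ, ← iterate_succ_apply' τ]
      refine Equiv.swap_apply_of_ne_of_ne ?_ ?_
      · intro h
        exact hx (h ▸ hsc (j + 1))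
      · intro h
        exact hz (h ▸ hsc (j + 1))
  refine ⟨h1, ?_⟩
  apply Nat.dvd_antisymm
  · refine IsPeriodicPt.minimalPeriod_dvd ?_
    show τ'^[minimalPeriod τ w] w = w
    rw [h1]
    exact isPeriodicPt_minimalPeriod τ w
  · refine IsPeriodicPt.minimalPeriod_dvd ?_
    show τ^[minimalPeriod τ' w] w = w
    rw [← h1]
    exact isPeriodicPt_minimalPeriod τ' w

/-- **Switching.** -/
theorem switch_count {S C X : Type} [Fintype C] [DecidableEq S] [DecidableEq C] [Finite X]
    [DecidableEq X] (T : S → Equiv.Perm X) (x : X) (z : C → X) (hz : Injective z)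
    (φ : C → S → S) (hφ : ∀ c, Injective (φ c))
    (hT : ∀ c s, T (φ c s) = Equiv.swap x (z c) * T s) (A B : Finset S) (g m : ℕ)
    (hA : ∀ s ∈ A, minimalPeriod (T s) x ≤ g) (bad : S → Finset C)
    (hbad : ∀ s ∈ A, (bad s).card ≤ m)
    (hB : ∀ s ∈ A, ∀ c, c ∉ bad s → ¬ (T s).SameCycle x (z c) ∧ φ c s ∈ B) :
    A.card * (Fintype.card C - m) ≤ g * B.card := by
  classical
  let Q : Finset (S × C) := A.biUnion (fun s => ((univ : Finset C) \ bad s).image (fun c => (s, c)))
  have hQm : ∀ s c, (s, c) ∈ Q ↔ s ∈ A ∧ c ∉ bad s := by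
    intro s c
    simp only [Q, mem_biUnion, mem_image, mem_sdiff, mem_univ, true_and, Prod.mk.injEq]
    constructor
    · rintro ⟨s', h1, c', h2, rfl, rfl⟩
      exact ⟨h1, h2⟩
    · rintro ⟨h1, h2⟩
      exact ⟨s, h1, c, h2, rfl, rfl⟩
  have hQc : A.card * (Fintype.card C - m) ≤ Q.card := by
    rw [card_biUnion]
    · rw [← smul_eq_mul, ← sum_const]
      refine sum_le_sum fun s hs => ?_
      rw [card_image_of_injective _ (fun a b h => congrArg Prod.snd h)]
      have h1 := le_card_sdiff (bad s) (univ : Finset C)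
      rw [card_univ] at h1
      have h2 := hbad s hs
      omega
    · intro s hs s' hs' hss
      simp only [Function.onFun]
      rw [Finset.disjoint_left]
      rintro ⟨a, c⟩ h1 h2
      obtain ⟨c1, _, h3⟩ := mem_image.1 h1
      obtain ⟨c2, _, h4⟩ := mem_image.1 h2
      exact hss ((congrArg Prod.fst h3).trans (congrArg Prod.fst h4).symm)
  refine hQc.trans ?_
  have h3 : Q.card ≤ (range g ×ˢ B).card := by
    refine card_le_card_of_injOn (fun p => (minimalPeriod (T p.1) x - 1, φ p.2 p.1)) ?_ ?_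
    · rintro ⟨s, c⟩ hp
      obtain ⟨h4, h5⟩ := (hQm s c).1 (mem_coe.1 hp)
      have h6 := hA s h4
      have h7 := per_pos (T s) x
      simp only [coe_product, Set.mem_prod, mem_coe, mem_range]
      exact ⟨by omega, (hB s h4 c h5).2⟩
    · rintro ⟨s, c⟩ hp ⟨s', c'⟩ hp' h
      obtain ⟨h4, h5⟩ := (hQm s c).1 (mem_coe.1 hp)
      obtain ⟨h4', h5'⟩ := (hQm s' c').1 (mem_coe.1 hp')
      have h6 : minimalPeriod (T s) x - 1 = minimalPeriod (T s') x - 1 := congrArg Prod.fst h
      have h7 : φ c s = φ c' s' := congrArg Prod.snd h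
      have h8 := per_pos (T s) x
      have h9 := per_pos (T s') x
      have h10 : minimalPeriod (T s) x = minimalPeriod (T s') x := by omega
      have h11 := (swap_iter (T s) x (z c) (hB s h4 c h5).1).2
      have h12 := (swap_iter (T s') x (z c') (hB s' h4' c' h5').1).2
      rw [← hT] at h11 h12
      rw [h7, h10, h12] at h11
      have h13 : c' = c := hz h11
      subst h13
      rw [hφ _ h7]
  rw [card_product, card_range] at h3
  exact h3

end Pool.Agent.Run7.H778.RL
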